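import Mathlib

namespace Pool.Agent.Work.Shared.PNT

open Complex MeasureTheory Set Filter Topology Asymptotics

/-- The truncated fractional part, as a function to be Mellin transformed. -/
noncomputable def fN (N : ℕ) : ℝ → ℂ := (Ioi (N : ℝ)).indicator fun t => ((Int.fract t : ℝ) : ℂ)

/-- `R_N(s) = ∫_N^∞ {t} t^(-s-1) dt`. -/
noncomputable def RN (N : ℕ) (s : ℂ) : ℂ := mellin (fN N) (-s)

lemma norm_fN_le (N : ℕ) (t : ℝ) : ‖fN N t‖ ≤ 1 := by
  unfold fN
  by_cases h : t ∈ Ioi (N : ℝ)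
  · rw [indicator_of_mem h, norm_real, Real.norm_of_nonneg (Int.fract_nonneg t)]
    exact (Int.fract_lt_one t).le
  · rw [indicator_of_notMem h]; simp

lemma measurable_fN (N : ℕ) : Measurable (fN N) := by
  unfold fN
  exact (Complex.measurable_ofReal.comp measurable_fract).indicator measurableSet_Ioi

lemma locallyIntegrableOn_fN (N : ℕ) : LocallyIntegrableOn (fN N) (Ioi 0) := by
  refine LocallyIntegrable.locallyIntegrableOn ?_ _
  refine (locallyIntegrable_const (1 : ℝ)).mono (measurable_fN N).aestronglyMeasurable ?_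
  exact Eventually.of_forall fun t => by simpa using norm_fN_le N t

lemma fN_top (N : ℕ) : (fN N) =O[atTop] (fun t : ℝ => t ^ (-(0 : ℝ))) := by
  refine IsBigO.of_bound 1 (Eventually.of_forall fun t => ?_)
  simpa using norm_fN_le N t

lemma fN_bot {N : ℕ} (hN : 1 ≤ N) (b : ℝ) : (fN N) =O[𝓝[>] 0] (fun t : ℝ => t ^ (-b)) := by
  have : fN N =ᶠ[𝓝[>] 0] fun _ => 0 := by
    have h1 : ∀ᶠ t : ℝ in 𝓝[>] 0, t < 1 :=
      (eventually_lt_nhds (zero_lt_one)).filter_mono nhdsWithin_le_nhds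
    filter_upwards [h1] with t ht
    have hN' : (1 : ℝ) ≤ N := by exact_mod_cast hN
    unfold fN
    rw [indicator_of_notMem]
    simp only [mem_Ioi, not_lt]
    linarith
  exact this.isBigO.trans (isBigO_zero _ _)

lemma differentiableAt_RN {N : ℕ} (hN : 1 ≤ N) {s : ℂ} (hs : 0 < s.re) :
    DifferentiableAt ℂ (RN N) s := by
  have h : DifferentiableAt ℂ (mellin (fN N)) (-s) :=
    mellin_differentiableAt_of_isBigO_rpow (a := 0) (b := -s.re - 1)
      (locallyIntegrableOn_fN N) (fN_top N) (by simpa using hs) (fN_bot hN _) (by simp)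
  exact DifferentiableAt.comp s h differentiableAt_id.neg

lemma RN_eq (N : ℕ) (hN : 1 ≤ N) (s : ℂ) :
    RN N s = ∫ t in Ioi (N : ℝ), ((Int.fract t : ℝ) : ℂ) * (t : ℂ) ^ (-(s + 1)) := by
  have hN' : (1 : ℝ) ≤ N := by exact_mod_cast hN
  unfold RN mellin fN
  have : ∀ t : ℝ, (t : ℂ) ^ (-s - 1) • (Ioi (N : ℝ)).indicator (fun t => ((Int.fract t : ℝ) : ℂ)) t
      = (Ioi (N : ℝ)).indicator (fun t => ((Int.fract t : ℝ) : ℂ) * (t : ℂ) ^ (-(s + 1))) t := by
    intro t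
    by_cases h : t ∈ Ioi (N : ℝ)
    · rw [indicator_of_mem h, indicator_of_mem h, smul_eq_mul, mul_comm]
      congr 2
      ring
    · rw [indicator_of_notMem h, indicator_of_notMem h, smul_zero]
  simp_rw [this]
  rw [setIntegral_indicator measurableSet_Ioi]
  congr 2
  ext t
  simp only [mem_inter_iff, mem_Ioi]
  constructor
  · exact fun h => h.2
  · exact fun h => ⟨by linarith, h⟩

lemma norm_RN_le {N : ℕ} (hN : 1 ≤ N) {s : ℂ} (hs : 0 < s.re) :
    ‖RN N s‖ ≤ (N : ℝ) ^ (-s.re) / s.re := by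
  have hN' : (1 : ℝ) ≤ N := by exact_mod_cast hN
  have hN0 : (0 : ℝ) < N := by linarith
  rw [RN_eq N hN]
  have hint : IntegrableOn (fun t : ℝ => t ^ (-s.re - 1)) (Ioi (N : ℝ)) :=
    integrableOn_Ioi_rpow_of_lt (by linarith) hN0
  have h := norm_integral_le_of_norm_le hint (f := fun t : ℝ =>
    ((Int.fract t : ℝ) : ℂ) * (t : ℂ) ^ (-(s + 1))) ?_
  · refine h.trans (le_of_eq ?_)
    rw [integral_Ioi_rpow_of_lt (by linarith) hN0]
    rw [show -s.re - 1 + 1 = -s.re by ring]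
    rw [neg_div_neg_eq]
  · rw [ae_restrict_iff' measurableSet_Ioi]
    refine Eventually.of_forall fun t ht => ?_
    have ht0 : 0 < t := hN0.trans ht
    rw [norm_mul, norm_real, Real.norm_of_nonneg (Int.fract_nonneg t),
      norm_cpow_eq_rpow_re_of_pos ht0]
    have e : (-(s + 1)).re = -s.re - 1 := by simp; ring
    rw [e]
    exact mul_le_of_le_one_left (by positivity) (Int.fract_lt_one t).le

/-- the coefficients of the tail of the zeta series -/
noncomputable def cN (N : ℕ) (n : ℕ) : ℂ := if N < n then 1 else 0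

lemma sum_cN (N m : ℕ) : ∑ k ∈ Finset.Icc 1 m, cN N k = ((m - N : ℕ) : ℂ) := by
  unfold cN
  rw [Finset.sum_ite, Finset.sum_const_zero, add_zero, Finset.sum_const, nsmul_eq_mul, mul_one]
  congr 1
  have : Finset.filter (fun k => N < k) (Finset.Icc 1 m) = Finset.Ioc N m := by
    ext k
    simp only [Finset.mem_filter, Finset.mem_Icc, Finset.mem_Ioc]
    omega
  rw [this, Nat.card_Ioc]

lemma summable_one {s : ℂ} (hs : 1 < s.re) : LSeriesSummable (1 : ℕ → ℂ) s :=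
  LSeriesSummable_one_iff.2 hs

lemma LSeries_cN (N : ℕ) {s : ℂ} (hs : 1 < s.re) :
    LSeries (cN N) s = riemannZeta s - ∑ n ∈ Finset.Icc 1 N, (n : ℂ) ^ (-s) := by
  have h1 := LSeries_one_eq_riemannZeta hs
  have hsum := summable_one hs
  have hfin : HasSum (fun n => if n ∈ Finset.Icc 1 N then LSeries.term 1 s n else 0)
      (∑ n ∈ Finset.Icc 1 N, LSeries.term 1 s n) := by
    have e : ∑ n ∈ Finset.Icc 1 N, LSeries.term 1 s n = ∑ n ∈ Finset.Icc 1 N,
        (if n ∈ Finset.Icc 1 N then LSeries.term 1 s n else 0) :=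
      Finset.sum_congr rfl fun n hn => (if_pos hn).symm
    rw [e]
    exact hasSum_sum_of_ne_finset_zero (fun b hb => if_neg hb)
  have h2 : HasSum (fun n => LSeries.term 1 s n -
      (if n ∈ Finset.Icc 1 N then LSeries.term 1 s n else 0))
      (LSeries 1 s - ∑ n ∈ Finset.Icc 1 N, LSeries.term 1 s n) :=
    hsum.hasSum.sub hfin
  have h3 : (fun n => LSeries.term 1 s n -
      (if n ∈ Finset.Icc 1 N then LSeries.term 1 s n else 0)) = LSeries.term (cN N) s := by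
    ext n
    rcases Nat.eq_zero_or_pos n with rfl | hn
    · simp
    · by_cases h : N < n
      · have : n ∉ Finset.Icc 1 N := by simp only [Finset.mem_Icc]; omega
        rw [if_neg this, LSeries.term_of_ne_zero hn.ne', LSeries.term_of_ne_zero hn.ne']
        simp [cN, h]
      · have : n ∈ Finset.Icc 1 N := by simp only [Finset.mem_Icc]; omega
        rw [if_pos this, LSeries.term_of_ne_zero hn.ne', LSeries.term_of_ne_zero hn.ne']
        simp [cN, h]
  rw [h3] at h2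
  rw [LSeries, h2.tsum_eq, h1]
  congr 1
  apply Finset.sum_congr rfl
  intro n hn
  have hn' : n ≠ 0 := by simp only [Finset.mem_Icc] at hn; omega
  rw [LSeries.term_of_ne_zero hn', cpow_neg]
  simp

lemma LSeries_cN_eq_integral {N : ℕ} (hN : 1 ≤ N) {s : ℂ} (hs : 1 < s.re) :
    LSeries (cN N) s = s * ∫ t in Ioi (N : ℝ), ((t : ℂ) - N - ((Int.fract t : ℝ) : ℂ)) *
      (t : ℂ) ^ (-(s + 1)) := by
  have hO : (fun n ↦ ∑ k ∈ Finset.Icc 1 n, ‖cN N k‖) =O[atTop] fun n : ℕ ↦ (n : ℝ) ^ (1 : ℝ) := by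
    refine IsBigO.of_bound 1 (Eventually.of_forall fun n => ?_)
    rw [Real.rpow_one, one_mul, Real.norm_of_nonneg (Finset.sum_nonneg fun _ _ => norm_nonneg _),
      Real.norm_of_nonneg (Nat.cast_nonneg n)]
    calc ∑ k ∈ Finset.Icc 1 n, ‖cN N k‖ ≤ ∑ k ∈ Finset.Icc 1 n, (1 : ℝ) := by
          apply Finset.sum_le_sum
          intro k _
          unfold cN
          split_ifs <;> simp
      _ = n := by simp
  rw [LSeries_eq_mul_integral' (cN N) zero_le_one hs hO]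
  congr 1
  have hN' : (1 : ℝ) ≤ N := by exact_mod_cast hN
  have hsub : Ioi (N : ℝ) ⊆ Ioi (1 : ℝ) := Ioi_subset_Ioi hN'
  rw [setIntegral_eq_of_subset_of_forall_sdiff_eq_zero measurableSet_Ioi hsub]
  · apply setIntegral_congr_fun measurableSet_Ioi
    intro t ht
    simp only
    have ht' : (N : ℝ) < t := ht
    have ht0 : 0 ≤ t := by linarith
    rw [sum_cN]
    congr 1
    have h1 : N ≤ ⌊t⌋₊ := Nat.le_floor ht'.le
    rw [Nat.cast_sub h1]
    have h2 : ((⌊t⌋₊ : ℕ) : ℝ) = t - Int.fract t := by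
      rw [natCast_floor_eq_intCast_floor ht0, Int.self_sub_fract]
    have h3 : ((⌊t⌋₊ : ℕ) : ℂ) = (t : ℂ) - ((Int.fract t : ℝ) : ℂ) := by
      rw [← ofReal_sub, ← h2]; simp
    rw [h3]; ring
  · intro t ht
    have h1 : t ≤ N := by
      have := ht.2
      simpa using this
    rw [sum_cN, Nat.sub_eq_zero_of_le (Nat.floor_le_of_le h1)]
    simp

lemma zeta_formula_of_one_lt {N : ℕ} (hN : 1 ≤ N) {s : ℂ} (hs : 1 < s.re) :
    riemannZeta s = ∑ n ∈ Finset.Icc 1 N, (n : ℂ) ^ (-s) + (N : ℂ) ^ (1 - s) / (s - 1)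
      - s * RN N s := by
  have hN' : (1 : ℝ) ≤ N := by exact_mod_cast hN
  have hN0 : (0 : ℝ) < N := by linarith
  have h1 := LSeries_cN N hs
  rw [LSeries_cN_eq_integral hN hs] at h1
  have hs0 : s ≠ 0 := by
    intro h; rw [h] at hs; simp at hs; linarith
  have hs1 : s - 1 ≠ 0 := by
    intro h
    have : s = 1 := by linear_combination h
    rw [this] at hs; simp at hs
  have i1 : IntegrableOn (fun t : ℝ => (t : ℂ) ^ (-s)) (Ioi (N : ℝ)) :=
    integrableOn_Ioi_cpow_of_lt (by simpa using hs) hN0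
  have i2 : IntegrableOn (fun t : ℝ => (t : ℂ) ^ (-(s + 1))) (Ioi (N : ℝ)) :=
    integrableOn_Ioi_cpow_of_lt (by simp; linarith) hN0
  have i3 : IntegrableOn (fun t : ℝ => ((Int.fract t : ℝ) : ℂ) * (t : ℂ) ^ (-(s + 1)))
      (Ioi (N : ℝ)) := by
    refine Integrable.mono i2 ?_ ?_
    · exact ((Complex.measurable_ofReal.comp measurable_fract).aestronglyMeasurable).mul
        i2.aestronglyMeasurable
    · refine Eventually.of_forall fun t => ?_
      rw [norm_mul, norm_real, Real.norm_of_nonneg (Int.fract_nonneg t)]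
      exact mul_le_of_le_one_left (norm_nonneg _) (Int.fract_lt_one t).le
  have e : ∫ t in Ioi (N : ℝ), ((t : ℂ) - N - ((Int.fract t : ℝ) : ℂ)) * (t : ℂ) ^ (-(s + 1))
      = (∫ t in Ioi (N : ℝ), (t : ℂ) ^ (-s)) - N * (∫ t in Ioi (N : ℝ), (t : ℂ) ^ (-(s + 1)))
        - RN N s := by
    have i12 : IntegrableOn (fun t : ℝ => (t : ℂ) ^ (-s) - N * (t : ℂ) ^ (-(s + 1)))
        (Ioi (N : ℝ)) := i1.sub (i2.const_mul _)
    rw [RN_eq N hN, ← integral_const_mul, ← integral_sub i1 (i2.const_mul _),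
      ← integral_sub i12 i3]
    apply setIntegral_congr_fun measurableSet_Ioi
    intro t ht
    have ht0 : (t : ℂ) ≠ 0 := by
      have h0 : (N : ℝ) < t := ht
      have : t ≠ 0 := by linarith
      exact_mod_cast this
    simp only
    have : (t : ℂ) ^ (-s) = t * (t : ℂ) ^ (-(s + 1)) := by
      rw [show -s = 1 + -(s + 1) by ring, cpow_add _ _ ht0, cpow_one]
    rw [this]; ring
  rw [e, integral_Ioi_cpow_of_lt (by simpa using hs) hN0,
    integral_Ioi_cpow_of_lt (by simp; linarith) hN0] at h1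
  have hNc : ((N : ℝ) : ℂ) = (N : ℂ) := by simp
  have hNc0 : (N : ℂ) ≠ 0 := by
    have : N ≠ 0 := by omega
    exact_mod_cast this
  rw [hNc, show -s + 1 = 1 - s by ring, show -(s + 1) + 1 = -s by ring] at h1
  have h2 : (N : ℂ) ^ (1 - s) = N * (N : ℂ) ^ (-s) := by
    rw [show 1 - s = 1 + -s by ring, cpow_add _ _ hNc0, cpow_one]
  have hs1' : 1 - s ≠ 0 := by
    intro h; apply hs1; linear_combination -h
  have h3 : riemannZeta s = ∑ n ∈ Finset.Icc 1 N, (n : ℂ) ^ (-s) +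
      s * (-(N : ℂ) ^ (1 - s) / (1 - s) - N * (-(N : ℂ) ^ (-s) / -s) - RN N s) := by
    linear_combination -h1
  rw [h3, h2]
  field_simp
  ring

/-- `Z(s) = (s-1) ζ(s)`. -/
lemma Z_eq {s : ℂ} (hs : s ≠ 1) : riemannZeta₁ s = (s - 1) * riemannZeta s := by
  have : s - 1 ≠ 0 := sub_ne_zero_of_ne hs
  rw [riemannZeta_eq_inv_sub_mul hs]
  field_simp

/-- Euler-Maclaurin type formula for `Z(s) = (s-1)ζ(s)` in the half plane `Re s > 0`. -/
lemma Z_formula {N : ℕ} (hN : 1 ≤ N) {s : ℂ} (hs : 0 < s.re) :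
    riemannZeta₁ s = (s - 1) * ∑ n ∈ Finset.Icc 1 N, (n : ℂ) ^ (-s) + (N : ℂ) ^ (1 - s)
      - s * (s - 1) * RN N s := by
  have hNc0 : (N : ℂ) ≠ 0 := by
    have : N ≠ 0 := by omega
    exact_mod_cast this
  let U : Set ℂ := {s : ℂ | 0 < s.re}
  have hUo : IsOpen U := isOpen_lt continuous_const continuous_re
  have hUc : IsPreconnected U := (convex_halfSpace_re_gt 0).isPreconnected
  have hd1 : DifferentiableOn ℂ riemannZeta₁ U := differentiable_riemannZeta₁.differentiableOn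
  have hd2 : DifferentiableOn ℂ (fun s : ℂ => (s - 1) * ∑ n ∈ Finset.Icc 1 N, (n : ℂ) ^ (-s) +
      (N : ℂ) ^ (1 - s) - s * (s - 1) * RN N s) U := by
    intro s hs
    apply DifferentiableAt.differentiableWithinAt
    have hR := differentiableAt_RN hN hs
    have hsum : DifferentiableAt ℂ (fun s : ℂ => ∑ n ∈ Finset.Icc 1 N, (n : ℂ) ^ (-s)) s := by
      apply DifferentiableAt.fun_sum
      intro n hn
      have hn' : (n : ℂ) ≠ 0 := by
        simp only [Finset.mem_Icc] at hn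
        have : n ≠ 0 := by omega
        exact_mod_cast this
      exact differentiableAt_id.neg.const_cpow (Or.inl hn')
    have hpow : DifferentiableAt ℂ (fun s : ℂ => (N : ℂ) ^ (1 - s)) s :=
      (differentiableAt_id.const_sub 1).const_cpow (Or.inl hNc0)
    exact (((differentiableAt_id.sub_const 1).mul hsum).add hpow).sub
      ((differentiableAt_id.mul (differentiableAt_id.sub_const 1)).mul hR)
  have ha1 := hd1.analyticOnNhd hUo
  have ha2 := hd2.analyticOnNhd hUo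
  have h2 : (2 : ℂ) ∈ U := by simp [U]
  have heq : riemannZeta₁ =ᶠ[𝓝 (2 : ℂ)] (fun s : ℂ => (s - 1) * ∑ n ∈ Finset.Icc 1 N,
      (n : ℂ) ^ (-s) + (N : ℂ) ^ (1 - s) - s * (s - 1) * RN N s) := by
    have : ∀ᶠ s : ℂ in 𝓝 2, 1 < s.re :=
      (isOpen_lt continuous_const continuous_re).mem_nhds (by simp)
    filter_upwards [this] with s hs
    have hs1 : s ≠ 1 := by
      rintro rfl
      simp at hs
    have : s - 1 ≠ 0 := sub_ne_zero_of_ne hs1
    rw [Z_eq hs1, zeta_formula_of_one_lt hN hs]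
    field_simp
  exact ha1.eqOn_of_preconnected_of_eventuallyEq ha2 hUc h2 heq hs

lemma sum_rpow_le {δ : ℝ} (hδ : 0 < δ) (hδ1 : δ ≤ 1) (N : ℕ) :
    ∑ n ∈ Finset.Icc 1 N, (n : ℝ) ^ (δ - 1) ≤ (N : ℝ) ^ δ / δ := by
  induction N with
  | zero => simp; positivity
  | succ N ih =>
    rw [Finset.sum_Icc_succ_top (by omega)]
    have hN1 : (0 : ℝ) < (N : ℝ) + 1 := by positivity
    have hB : (1 + -(1 / ((N : ℝ) + 1))) ^ δ ≤ 1 + δ * -(1 / ((N : ℝ) + 1)) := by
      apply rpow_one_add_le_one_add_mul_self _ hδ.le hδ1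
      have : 1 / ((N : ℝ) + 1) ≤ 1 := by
        rw [div_le_one hN1]; linarith [(Nat.cast_nonneg N : (0 : ℝ) ≤ N)]
      linarith
    have e1 : 1 + -(1 / ((N : ℝ) + 1)) = N / (N + 1) := by field_simp; ring
    rw [e1, Real.div_rpow (by positivity) hN1.le, div_le_iff₀ (by positivity)] at hB
    have e2 : ((N : ℝ) + 1) ^ δ = ((N : ℝ) + 1) ^ (δ - 1) * (N + 1) := by
      rw [← Real.rpow_add_one hN1.ne']; congr 1; ring
    have hB' : (N : ℝ) ^ δ ≤ ((N : ℝ) + 1) ^ δ - δ * ((N : ℝ) + 1) ^ (δ - 1) := by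
      refine hB.trans (le_of_eq ?_)
      rw [e2]; field_simp; ring
    push_cast
    calc _ ≤ (N : ℝ) ^ δ / δ + ((N : ℝ) + 1) ^ (δ - 1) := by gcongr
      _ ≤ (((N : ℝ) + 1) ^ δ - δ * ((N : ℝ) + 1) ^ (δ - 1)) / δ + ((N : ℝ) + 1) ^ (δ - 1) := by
          gcongr
      _ = ((N : ℝ) + 1) ^ δ / δ := by field_simp; ring

lemma Z_upper {δ : ℝ} (hδ : 0 < δ) (hδ1 : δ ≤ 1 / 2) :
    ∃ C : ℝ, 0 < C ∧ ∀ s : ℂ, 1 - δ ≤ s.re → s.re ≤ 3 →
      ‖riemannZeta₁ s‖ ≤ C * (1 + |s.im|) ^ (1 + δ) := by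
  refine ⟨(2 * (1 / δ + 2) + 1) * 5 ^ (1 + δ), by positivity, fun s hs hs3 => ?_⟩
  have hσ : 1 / 2 ≤ s.re := by linarith
  have hσ0 : 0 < s.re := by linarith
  set N : ℕ := ⌈‖s‖⌉₊ + 1 with hNdef
  have hN : 1 ≤ N := by omega
  have hN1 : (1 : ℝ) ≤ N := by exact_mod_cast hN
  have hN0 : (0 : ℝ) < N := by linarith
  have hsN : ‖s‖ ≤ N := by
    have := Nat.le_ceil ‖s‖
    rw [hNdef]; push_cast; linarith
  have hNs : (N : ℝ) ≤ 5 * (1 + |s.im|) := by
    have h1 := Nat.ceil_lt_add_one (norm_nonneg s)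
    have h2 := Complex.norm_le_abs_re_add_abs_im s
    rw [abs_of_pos hσ0] at h2
    have h3 := abs_nonneg s.im
    rw [hNdef]; push_cast
    linarith
  rw [Z_formula hN hσ0]
  have hs1 : ‖s - 1‖ ≤ 2 * N := by
    calc ‖s - 1‖ ≤ ‖s‖ + ‖(1 : ℂ)‖ := norm_sub_le _ _
      _ ≤ 2 * N := by simp; linarith
  have hsum : ‖∑ n ∈ Finset.Icc 1 N, (n : ℂ) ^ (-s)‖ ≤ (N : ℝ) ^ δ / δ := by
    refine (norm_sum_le _ _).trans ((Finset.sum_le_sum ?_).trans (sum_rpow_le hδ (by linarith) N))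
    intro n hn
    simp only [Finset.mem_Icc] at hn
    have hn1 : (1 : ℝ) ≤ n := by exact_mod_cast hn.1
    rw [show (n : ℂ) = ((n : ℝ) : ℂ) by simp, norm_cpow_eq_rpow_re_of_pos (by linarith)]
    apply Real.rpow_le_rpow_of_exponent_le hn1
    simp; linarith
  have hpow : ‖(N : ℂ) ^ (1 - s)‖ ≤ (N : ℝ) ^ δ := by
    rw [show (N : ℂ) = ((N : ℝ) : ℂ) by simp, norm_cpow_eq_rpow_re_of_pos hN0]
    apply Real.rpow_le_rpow_of_exponent_le hN1
    simp; linarith
  have hR : ‖RN N s‖ ≤ 2 * (N : ℝ) ^ (δ - 1) := by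
    refine (norm_RN_le hN hσ0).trans ?_
    rw [div_le_iff₀ hσ0]
    have h1 : (N : ℝ) ^ (-s.re) ≤ (N : ℝ) ^ (δ - 1) :=
      Real.rpow_le_rpow_of_exponent_le hN1 (by linarith)
    have h2 : 0 ≤ (N : ℝ) ^ (δ - 1) := by positivity
    nlinarith
  have hNδ : (N : ℝ) ^ (1 + δ) = N * (N : ℝ) ^ δ := by
    rw [Real.rpow_add hN0, Real.rpow_one]
  have hNδ' : (N : ℝ) ^ δ = N * (N : ℝ) ^ (δ - 1) := by
    rw [mul_comm, ← Real.rpow_add_one hN0.ne']; congr 1; ring
  calc ‖(s - 1) * ∑ n ∈ Finset.Icc 1 N, (n : ℂ) ^ (-s) + (N : ℂ) ^ (1 - s)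
        - s * (s - 1) * RN N s‖
      ≤ ‖s - 1‖ * ‖∑ n ∈ Finset.Icc 1 N, (n : ℂ) ^ (-s)‖ + ‖(N : ℂ) ^ (1 - s)‖
        + ‖s‖ * ‖s - 1‖ * ‖RN N s‖ := by
        refine (norm_sub_le _ _).trans ?_
        rw [norm_mul, norm_mul]
        gcongr
        refine (norm_add_le _ _).trans ?_
        rw [norm_mul]
    _ ≤ (2 * N) * ((N : ℝ) ^ δ / δ) + (N : ℝ) ^ δ + N * (2 * N) * (2 * (N : ℝ) ^ (δ - 1)) := by
        gcongr
    _ = (2 * (1 / δ + 2)) * (N : ℝ) ^ (1 + δ) + (N : ℝ) ^ δ := by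
        rw [hNδ, hNδ']; ring
    _ ≤ (2 * (1 / δ + 2)) * (N : ℝ) ^ (1 + δ) + (N : ℝ) ^ (1 + δ) := by
        gcongr
        linarith
    _ = (2 * (1 / δ + 2) + 1) * (N : ℝ) ^ (1 + δ) := by ring
    _ ≤ (2 * (1 / δ + 2) + 1) * (5 * (1 + |s.im|)) ^ (1 + δ) := by gcongr
    _ = (2 * (1 / δ + 2) + 1) * 5 ^ (1 + δ) * (1 + |s.im|) ^ (1 + δ) := by
        rw [Real.mul_rpow (by norm_num) (by positivity)]; ring

end Pool.Agent.Work.Shared.PNT
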