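import Mathlib
import Pool.Agent.Work.Shared.PNT.ZetaBound

namespace Pool.Agent.Work.Shared.PNT

open Complex MeasureTheory Set Filter Topology Asymptotics

/-- the height parameter -/
noncomputable def tau (s : ℂ) : ℝ := 1 + |s.im|

lemma one_le_tau (s : ℂ) : 1 ≤ tau s := by
  unfold tau; linarith [abs_nonneg s.im]

lemma tau_pos (s : ℂ) : 0 < tau s := lt_of_lt_of_le one_pos (one_le_tau s)

lemma tau_le_add (s w : ℂ) : tau w ≤ tau s + ‖w - s‖ := by
  unfold tau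
  have h1 : |w.im| ≤ |s.im| + |(w - s).im| := by
    have := abs_add_le s.im (w - s).im
    simpa using this
  have h2 := abs_im_le_norm (w - s)
  linarith

lemma tau_le_two_mul {s w : ℂ} (h : ‖w - s‖ ≤ 1) : tau w ≤ 2 * tau s := by
  have := tau_le_add s w
  have := one_le_tau s
  linarith

/-- The Mertens `3-4-1` inequality in terms of `Z`. -/
lemma mertens {x y : ℝ} (hx : 0 < x) (hy : y ≠ 0) :
    x ^ 3 * |y| ^ 4 * |y| ≤ ‖riemannZeta₁ (1 + x)‖ ^ 3 * ‖riemannZeta₁ (1 + x + I * y)‖ ^ 4 *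
      ‖riemannZeta₁ (1 + x + 2 * I * y)‖ := by
  have h := DirichletCharacter.norm_LFunction_product_ge_one (N := 1) 1 hx y
  have e0 : DirichletCharacter.LFunctionTrivChar 1 = riemannZeta :=
    DirichletCharacter.LFunction_modOne_eq
  rw [e0, DirichletCharacter.LFunction_modOne_eq, DirichletCharacter.LFunction_modOne_eq] at h
  have hx' : (x : ℂ) ≠ 0 := by exact_mod_cast hx.ne'
  have n1 : (1 : ℂ) + x ≠ 1 := by
    intro h; apply hx'; linear_combination h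
  have n2 : (1 : ℂ) + x + I * y ≠ 1 := by
    intro h
    have := congrArg Complex.im h
    simp at this
    exact hy this
  have n3 : (1 : ℂ) + x + 2 * I * y ≠ 1 := by
    intro h
    have := congrArg Complex.im h
    simp at this
    exact hy this
  have a1 : ‖riemannZeta₁ (1 + x)‖ = x * ‖riemannZeta (1 + x)‖ := by
    rw [Z_eq n1, norm_mul, show (1 : ℂ) + x - 1 = x by ring, norm_real, Real.norm_of_nonneg hx.le]
  have a2 : |y| * ‖riemannZeta (1 + x + I * y)‖ ≤ ‖riemannZeta₁ (1 + x + I * y)‖ := by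
    rw [Z_eq n2, norm_mul]
    gcongr
    have := abs_im_le_norm ((1 : ℂ) + x + I * y - 1)
    simpa using this
  have a3 : |y| * ‖riemannZeta (1 + x + 2 * I * y)‖ ≤ ‖riemannZeta₁ (1 + x + 2 * I * y)‖ := by
    rw [Z_eq n3, norm_mul]
    gcongr
    have := abs_im_le_norm ((1 : ℂ) + x + 2 * I * y - 1)
    simp at this
    have h0 := abs_nonneg y
    linarith
  rw [norm_mul, norm_mul, norm_pow, norm_pow] at h
  rw [a1]
  calc x ^ 3 * |y| ^ 4 * |y| = x ^ 3 * |y| ^ 4 * |y| * 1 := by ring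
    _ ≤ x ^ 3 * |y| ^ 4 * |y| * (‖riemannZeta (1 + x)‖ ^ 3 * ‖riemannZeta (1 + x + I * y)‖ ^ 4 *
        ‖riemannZeta (1 + x + 2 * I * y)‖) := by
        gcongr
    _ = (x * ‖riemannZeta (1 + x)‖) ^ 3 * (|y| * ‖riemannZeta (1 + x + I * y)‖) ^ 4 *
        (|y| * ‖riemannZeta (1 + x + 2 * I * y)‖) := by ring
    _ ≤ _ := by gcongr

/-- bound for the derivative of `Z` -/
lemma Z_deriv_upper {δ : ℝ} (hδ : 0 < δ) (hδ1 : δ ≤ 1 / 2) :
    ∃ C : ℝ, 0 < C ∧ ∀ s : ℂ, 1 - δ / 2 ≤ s.re → s.re ≤ 5 / 2 →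
      ‖deriv riemannZeta₁ s‖ ≤ C * tau s ^ (1 + δ) := by
  obtain ⟨C, hC, h⟩ := Z_upper hδ hδ1
  refine ⟨C * 2 ^ (1 + δ) / (δ / 2), by positivity, fun s hs hs3 => ?_⟩
  have hb : ∀ z ∈ Metric.sphere s (δ / 2), ‖riemannZeta₁ z‖ ≤ C * (2 * tau s) ^ (1 + δ) := by
    intro z hz
    have hz' : ‖z - s‖ = δ / 2 := by simpa [Complex.dist_eq] using hz
    have hre : |(z - s).re| ≤ δ / 2 := hz' ▸ abs_re_le_norm (z - s)
    rw [abs_le] at hre
    simp only [sub_re] at hre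
    refine (h z (by linarith [hre.1]) (by linarith [hre.2])).trans ?_
    have : 1 + |z.im| ≤ 2 * tau s := tau_le_two_mul (by rw [hz']; linarith)
    gcongr
  have := Complex.norm_deriv_le_of_forall_mem_sphere_norm_le (by positivity : 0 < δ / 2)
    differentiable_riemannZeta₁.diffContOnCl hb
  refine this.trans (le_of_eq ?_)
  rw [Real.mul_rpow (by norm_num) (tau_pos s).le]
  ring

/-- the fourth power lower bound -/
lemma Z_four {δ : ℝ} (hδ : 0 < δ) (hδ1 : δ ≤ 1 / 2) :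
    ∃ c : ℝ, 0 < c ∧ ∀ x y : ℝ, 0 < x → x ≤ 1 → 1 ≤ |y| →
      c ^ 4 * x ^ 3 * (1 + |y|) ^ (4 - δ) ≤ ‖riemannZeta₁ (1 + x + I * y)‖ ^ 4 := by
  obtain ⟨C, hC, h⟩ := Z_upper hδ hδ1
  refine ⟨(1 / (32 * C ^ 3 * (C * 2 ^ (1 + δ)))) ^ (1 / 4 : ℝ), by positivity,
    fun x y hx hx1 hy => ?_⟩
  have hy0 : y ≠ 0 := by rintro rfl; simp at hy; linarith
  have hm := mertens hx hy0
  have h1 : ‖riemannZeta₁ (1 + x)‖ ≤ C := by
    have := h (1 + x) (by simp; linarith) (by simp; linarith)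
    simpa using this
  have h2 : ‖riemannZeta₁ (1 + x + 2 * I * y)‖ ≤ C * 2 ^ (1 + δ) * (1 + |y|) ^ (1 + δ) := by
    refine (h (1 + x + 2 * I * y) (by simp; linarith) (by simp; linarith)).trans ?_
    have : |((1 : ℂ) + x + 2 * I * y).im| = 2 * |y| := by
      simp [abs_mul]
    rw [this, mul_assoc, ← Real.mul_rpow (by norm_num) (by positivity)]
    gcongr
    linarith
  have hc4 : ((1 / (32 * C ^ 3 * (C * 2 ^ (1 + δ)))) ^ (1 / 4 : ℝ)) ^ 4
      = 1 / (32 * C ^ 3 * (C * 2 ^ (1 + δ))) := by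
    rw [← Real.rpow_natCast, ← Real.rpow_mul (by positivity)]
    norm_num
  rw [hc4]
  set W := ‖riemannZeta₁ (1 + x + I * y)‖ ^ 4 with hW
  have hτ : 0 < 1 + |y| := by positivity
  have hτ2 : (1 + |y|) / 2 ≤ |y| := by linarith
  have hyp : (1 + |y|) ^ (5 : ℕ) / 32 ≤ |y| ^ 4 * |y| := by
    calc (1 + |y|) ^ (5 : ℕ) / 32 = ((1 + |y|) / 2) ^ 5 := by ring
      _ ≤ |y| ^ 5 := by gcongr
      _ = |y| ^ 4 * |y| := by ring
  have hfin : x ^ 3 * ((1 + |y|) ^ (5 : ℕ) / 32) ≤ C ^ 3 * W * (C * 2 ^ (1 + δ) *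
      (1 + |y|) ^ (1 + δ)) := by
    calc x ^ 3 * ((1 + |y|) ^ (5 : ℕ) / 32) ≤ x ^ 3 * (|y| ^ 4 * |y|) := by gcongr
      _ = x ^ 3 * |y| ^ 4 * |y| := by ring
      _ ≤ _ := hm
      _ ≤ _ := by gcongr
  have hpow : (1 + |y|) ^ (4 - δ) * (1 + |y|) ^ (1 + δ) = (1 + |y|) ^ (5 : ℕ) := by
    rw [← Real.rpow_add hτ, ← Real.rpow_natCast]
    congr 1
    push_cast
    ring
  have hD : 0 < 32 * C ^ 3 * (C * 2 ^ (1 + δ)) := by positivity
  rw [div_mul_eq_mul_div, div_mul_eq_mul_div, div_le_iff₀ hD, one_mul]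
  have hT : 0 < (1 + |y|) ^ (1 + δ) := by positivity
  refine le_of_mul_le_mul_right ?_ hT
  calc x ^ 3 * (1 + |y|) ^ (4 - δ) * (1 + |y|) ^ (1 + δ)
      = x ^ 3 * ((1 + |y|) ^ (4 - δ) * (1 + |y|) ^ (1 + δ)) := by ring
    _ = 32 * (x ^ 3 * ((1 + |y|) ^ (5 : ℕ) / 32)) := by rw [hpow]; ring
    _ ≤ 32 * (C ^ 3 * W * (C * 2 ^ (1 + δ) * (1 + |y|) ^ (1 + δ))) := by gcongr
    _ = _ := by ring

lemma convex_slab (y a b : ℝ) : Convex ℝ {w : ℂ | w.im = y ∧ a ≤ w.re ∧ w.re ≤ b} := by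
  intro u hu v hv p q hp hq hpq
  obtain ⟨h1, h2, h3⟩ := hu
  obtain ⟨h4, h5, h6⟩ := hv
  refine ⟨?_, ?_, ?_⟩
  · simp only [add_im, real_smul, mul_im, ofReal_re, ofReal_im, zero_mul, add_zero, h1, h4]
    rw [← add_mul, hpq, one_mul]
  · simp only [add_re, real_smul, mul_re, ofReal_re, ofReal_im, zero_mul, sub_zero]
    have e1 := mul_le_mul_of_nonneg_left h2 hp
    have e2 := mul_le_mul_of_nonneg_left h5 hq
    have e3 : a = p * a + q * a := by rw [← add_mul, hpq, one_mul]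
    linarith
  · simp only [add_re, real_smul, mul_re, ofReal_re, ofReal_im, zero_mul, sub_zero]
    have e1 := mul_le_mul_of_nonneg_left h3 hp
    have e2 := mul_le_mul_of_nonneg_left h6 hq
    have e3 : b = p * b + q * b := by rw [← add_mul, hpq, one_mul]
    linarith

/-- lower bound for `Z` high up -/
lemma Z_lower_high {δ : ℝ} (hδ : 0 < δ) (hδ1 : δ ≤ 1 / 10) :
    ∃ c ρ : ℝ, 0 < c ∧ 0 < ρ ∧ ρ ≤ 1 / 4 ∧ ∀ s : ℂ, 1 ≤ |s.im| →
      1 - ρ * tau s ^ (-(5 * δ)) ≤ s.re → s.re ≤ 2 →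
      c * tau s ^ (1 - 4 * δ) ≤ ‖riemannZeta₁ s‖ := by
  obtain ⟨c₁, hc₁, h4⟩ := Z_four hδ (by linarith)
  obtain ⟨C, hC, hd⟩ := Z_deriv_upper hδ (by linarith)
  set l : ℝ := min (c₁ / (4 * C)) (δ / 2) with hl
  have hl0 : 0 < l := lt_min (by positivity) (by positivity)
  have hlc : l ≤ c₁ / (4 * C) := min_le_left _ _
  have hlδ : l ≤ δ / 2 := min_le_right _ _
  have hl1 : l ≤ 1 := by linarith
  have hl4 : l ^ 4 ≤ l := by
    calc l ^ 4 ≤ l ^ 1 := pow_le_pow_of_le_one hl0.le hl1 (by norm_num)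
      _ = l := pow_one l
  refine ⟨c₁ * l ^ 3 / 2, l ^ 4, by positivity, by positivity, by linarith,
    fun s him hre hre2 => ?_⟩
  have hτ := tau_pos s
  have hτ1 := one_le_tau s
  set η : ℝ := l ^ 4 * tau s ^ (-(5 * δ)) with hη
  have hη0 : 0 < η := by positivity
  have hτneg : tau s ^ (-(5 * δ)) ≤ 1 :=
    Real.rpow_le_one_of_one_le_of_nonpos hτ1 (by linarith)
  have hηl : η ≤ l := by
    calc η ≤ l ^ 4 * 1 := by rw [hη]; gcongr
      _ ≤ l := by linarith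
  -- claim 1
  have claim1 : ∀ x : ℝ, η ≤ x → x ≤ 1 →
      c₁ * l ^ 3 * tau s ^ (1 - 4 * δ) ≤ ‖riemannZeta₁ (1 + x + I * s.im)‖ := by
    intro x hx hx1
    have hx0 : 0 < x := hη0.trans_le hx
    have hh := h4 x s.im hx0 hx1 him
    refine le_of_pow_le_pow_left₀ (n := 4) (by norm_num) (norm_nonneg _) (le_trans ?_ hh)
    have e1 : (c₁ * l ^ 3 * tau s ^ (1 - 4 * δ)) ^ 4 = c₁ ^ 4 * η ^ 3 * tau s ^ (4 - δ) := by
      rw [hη, mul_pow, mul_pow, mul_pow (l ^ 4), ← Real.rpow_natCast (tau s ^ (1 - 4 * δ)),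
        ← Real.rpow_natCast (tau s ^ (-(5 * δ))), ← Real.rpow_mul hτ.le, ← Real.rpow_mul hτ.le,
        mul_assoc (c₁ ^ 4) ((l ^ 4) ^ 3 * _), mul_assoc ((l ^ 4) ^ 3), ← Real.rpow_add hτ,
        ← pow_mul, ← pow_mul, mul_assoc]
      congr 3
      push_cast
      ring
    rw [e1]
    unfold tau
    gcongr
  by_cases hx : 1 + η ≤ s.re
  · have := claim1 (s.re - 1) (by linarith) (by linarith)
    have e : (1 : ℂ) + ((s.re - 1 : ℝ) : ℂ) + I * s.im = s := by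
      apply Complex.ext <;> simp
    rw [e] at this
    refine le_trans ?_ this
    have : 0 < tau s ^ (1 - 4 * δ) := by positivity
    have h0 : 0 < c₁ * l ^ 3 := by positivity
    nlinarith [mul_pos h0 this]
  · rw [not_le] at hx
    have hc := claim1 η le_rfl (by linarith)
    set w : ℂ := 1 + η + I * s.im with hw
    have hwim : w.im = s.im := by simp [hw]
    have hwre : w.re = 1 + η := by simp [hw]
    have hS := convex_slab s.im (1 - δ / 2) (5 / 2)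
    have hws : w ∈ {w : ℂ | w.im = s.im ∧ 1 - δ / 2 ≤ w.re ∧ w.re ≤ 5 / 2} := by
      refine ⟨hwim, ?_, ?_⟩
      · rw [hwre]; linarith
      · rw [hwre]; linarith
    have hss : s ∈ {w : ℂ | w.im = s.im ∧ 1 - δ / 2 ≤ w.re ∧ w.re ≤ 5 / 2} := by
      refine ⟨rfl, ?_, ?_⟩
      · linarith
      · linarith
    have hmv := hS.norm_image_sub_le_of_norm_deriv_le (f := riemannZeta₁)
      (C := C * tau s ^ (1 + δ)) (fun z _ => differentiable_riemannZeta₁ z) (fun z hz => by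
        have := hd z hz.2.1 hz.2.2
        have e : tau z = tau s := by unfold tau; rw [hz.1]
        rwa [e] at this) hss hws
    have hws2 : ‖w - s‖ ≤ 2 * η := by
      have e : w - s = ((1 + η - s.re : ℝ) : ℂ) := by
        apply Complex.ext
        · rw [sub_re, hwre, ofReal_re]
        · rw [sub_im, hwim, ofReal_im, sub_self]
      rw [e, norm_real, Real.norm_eq_abs, abs_le]
      constructor <;> linarith
    have h1 : ‖riemannZeta₁ w‖ ≤ ‖riemannZeta₁ s‖ + C * tau s ^ (1 + δ) * (2 * η) := by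
      have h2 : C * tau s ^ (1 + δ) * ‖w - s‖ ≤ C * tau s ^ (1 + δ) * (2 * η) := by gcongr
      have h3 := norm_sub_norm_le (riemannZeta₁ w) (riemannZeta₁ s)
      linarith
    have h5 : tau s ^ (1 + δ) * η = l ^ 4 * tau s ^ (1 - 4 * δ) := by
      rw [hη, mul_left_comm, ← Real.rpow_add hτ]
      congr 2
      ring
    have h6 : C * tau s ^ (1 + δ) * (2 * η) ≤ c₁ * l ^ 3 / 2 * tau s ^ (1 - 4 * δ) := by
      calc C * tau s ^ (1 + δ) * (2 * η) = 2 * C * (tau s ^ (1 + δ) * η) := by ring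
        _ = (2 * C * l) * l ^ 3 * tau s ^ (1 - 4 * δ) := by rw [h5]; ring
        _ ≤ (2 * C * (c₁ / (4 * C))) * l ^ 3 * tau s ^ (1 - 4 * δ) := by gcongr
        _ = c₁ * l ^ 3 / 2 * tau s ^ (1 - 4 * δ) := by field_simp; ring
    linarith

/-- lower bound for `Z` -/
lemma Z_lower {δ : ℝ} (hδ : 0 < δ) (hδ1 : δ ≤ 1 / 10) :
    ∃ c ρ : ℝ, 0 < c ∧ 0 < ρ ∧ ρ ≤ 1 / 4 ∧ ∀ s : ℂ,
      1 - ρ * tau s ^ (-(5 * δ)) ≤ s.re → s.re ≤ 2 →
      c * tau s ^ (1 - 4 * δ) ≤ ‖riemannZeta₁ s‖ := by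
  obtain ⟨c₁, ρ₁, hc₁, hρ₁, hρ₁', h1⟩ := Z_lower_high hδ hδ1
  -- the compact part
  set K : Set ℂ := Icc (1 : ℝ) 2 ×ℂ Icc (-1 : ℝ) 1 with hK
  have hKc : IsCompact K := isCompact_Icc.reProdIm isCompact_Icc
  have hKne : K.Nonempty := ⟨1, by simp [hK, mem_reProdIm]⟩
  have hcont : ContinuousOn (fun s => ‖riemannZeta₁ s‖) K :=
    (differentiable_riemannZeta₁.continuous.norm).continuousOn
  obtain ⟨s₀, hs₀, hmin⟩ := hKc.exists_isMinOn hKne hcont
  have hpos : 0 < ‖riemannZeta₁ s₀‖ := by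
    rw [norm_pos_iff]
    by_cases h : s₀ = 1
    · rw [h, riemannZeta₁_one]; exact one_ne_zero
    · rw [Z_eq h]
      refine mul_ne_zero (sub_ne_zero_of_ne h) (riemannZeta_ne_zero_of_one_le_re ?_)
      rw [hK, mem_reProdIm] at hs₀
      exact hs₀.1.1
  set m := ‖riemannZeta₁ s₀‖ with hm
  have hopen : IsOpen {s : ℂ | m / 2 < ‖riemannZeta₁ s‖} :=
    isOpen_lt continuous_const differentiable_riemannZeta₁.continuous.norm
  have hsub : K ⊆ {s : ℂ | m / 2 < ‖riemannZeta₁ s‖} := by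
    intro s hs
    have : m ≤ ‖riemannZeta₁ s‖ := hmin hs
    change m / 2 < ‖riemannZeta₁ s‖
    linarith
  obtain ⟨ρ₂, hρ₂, h2⟩ := hKc.exists_thickening_subset_open hopen hsub
  refine ⟨min c₁ (m / 4), min ρ₁ (ρ₂ / 2), lt_min hc₁ (by positivity),
    lt_min hρ₁ (by positivity), (min_le_left _ _).trans hρ₁', fun s hs hs2 => ?_⟩
  have hτ := tau_pos s
  have hτ1 := one_le_tau s
  have hτneg : tau s ^ (-(5 * δ)) ≤ 1 :=
    Real.rpow_le_one_of_one_le_of_nonpos hτ1 (by linarith)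
  have hτneg0 : 0 < tau s ^ (-(5 * δ)) := by positivity
  rcases le_or_gt 1 |s.im| with him | him
  · have h3 : 1 - ρ₁ * tau s ^ (-(5 * δ)) ≤ s.re := by
      have : min ρ₁ (ρ₂ / 2) * tau s ^ (-(5 * δ)) ≤ ρ₁ * tau s ^ (-(5 * δ)) := by
        gcongr; exact min_le_left _ _
      linarith
    refine le_trans ?_ (h1 s him h3 hs2)
    gcongr
    exact min_le_left _ _
  · have h3 : 1 - ρ₂ / 2 ≤ s.re := by
      have : min ρ₁ (ρ₂ / 2) * tau s ^ (-(5 * δ)) ≤ ρ₂ / 2 * 1 := by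
        gcongr
        exact min_le_right _ _
      linarith
    have hmem : s ∈ Metric.thickening ρ₂ K := by
      rw [Metric.mem_thickening_iff]
      rw [abs_lt] at him
      refine ⟨⟨max 1 s.re, s.im⟩, ?_, ?_⟩
      · rw [hK, mem_reProdIm]
        exact ⟨⟨le_max_left _ _, max_le (by norm_num) hs2⟩, ⟨him.1.le, him.2.le⟩⟩
      · rw [Complex.dist_eq]
        have e : s - ⟨max 1 s.re, s.im⟩ = ((s.re - max 1 s.re : ℝ) : ℂ) := by
          apply Complex.ext <;> simp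
        rw [e, norm_real, Real.norm_eq_abs, abs_lt]
        rcases max_cases 1 s.re with h | h
        · rw [h.1]; constructor <;> linarith
        · rw [h.1]; constructor <;> linarith
    have h4 : m / 2 < ‖riemannZeta₁ s‖ := h2 hmem
    have h5 : tau s ^ (1 - 4 * δ) ≤ 2 := by
      have hτ2 : tau s ≤ 2 := by unfold tau; linarith
      calc tau s ^ (1 - 4 * δ) ≤ tau s ^ (1 : ℝ) :=
            Real.rpow_le_rpow_of_exponent_le hτ1 (by linarith)
        _ = tau s := Real.rpow_one _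
        _ ≤ 2 := hτ2
    calc min c₁ (m / 4) * tau s ^ (1 - 4 * δ) ≤ m / 4 * 2 := by
          gcongr
          exact min_le_right _ _
      _ ≤ ‖riemannZeta₁ s‖ := by linarith

end Pool.Agent.Work.Shared.PNT
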