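import Mathlib
import Pool.Agent.Work.Shared.PNT.ZetaLower

namespace Pool.Agent.Work.Shared.PNT

open Complex MeasureTheory Set Filter Topology Asymptotics

/-- the function `-(1/s)(1 + Z'/Z)` -/
noncomputable def FF (s : ℂ) : ℂ :=
  -(1 / s) * (1 + deriv riemannZeta₁ s / riemannZeta₁ s)

/-- `FF` on a neighbourhood of the line, together with the growth bound. -/
lemma FF_bound {δ : ℝ} (hδ : 0 < δ) (hδ1 : δ ≤ 1 / 10) :
    ∃ C ρ : ℝ, 0 < C ∧ 0 < ρ ∧ ρ ≤ 1 / 4 ∧ ∀ s : ℂ,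
      1 - ρ * tau s ^ (-(5 * δ)) ≤ s.re → s.re ≤ 2 →
      DifferentiableAt ℂ FF s ∧ ‖FF s‖ ≤ C * tau s ^ (5 * δ - 1) := by
  obtain ⟨c, ρ₁, hc, hρ₁, hρ₁', h1⟩ := Z_lower hδ hδ1
  obtain ⟨C, hC, hd⟩ := Z_deriv_upper hδ (by linarith)
  refine ⟨3 * (1 + C / c), min ρ₁ (δ / 2), by positivity, lt_min hρ₁ (by positivity),
    (min_le_left _ _).trans hρ₁', fun s hs hs2 => ?_⟩
  have hτ := tau_pos s
  have hτ1 := one_le_tau s
  have hτneg : tau s ^ (-(5 * δ)) ≤ 1 :=
    Real.rpow_le_one_of_one_le_of_nonpos hτ1 (by linarith)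
  have hτneg0 : 0 < tau s ^ (-(5 * δ)) := by positivity
  have h3 : 1 - ρ₁ * tau s ^ (-(5 * δ)) ≤ s.re := by
    have : min ρ₁ (δ / 2) * tau s ^ (-(5 * δ)) ≤ ρ₁ * tau s ^ (-(5 * δ)) := by
      gcongr; exact min_le_left _ _
    linarith
  have h4 : 1 - δ / 2 ≤ s.re := by
    have : min ρ₁ (δ / 2) * tau s ^ (-(5 * δ)) ≤ δ / 2 * 1 := by
      gcongr
      exact min_le_right _ _
    linarith
  have hlow := h1 s h3 hs2
  have hup := hd s h4 (by linarith)
  have hZpos : 0 < ‖riemannZeta₁ s‖ := lt_of_lt_of_le (by positivity) hlow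
  have hZ : riemannZeta₁ s ≠ 0 := norm_pos_iff.mp hZpos
  have hs0 : s ≠ 0 := by
    rintro rfl
    simp at h4
    linarith
  have hre : 1 / 2 ≤ s.re := by linarith
  have hns : 1 / 2 ≤ ‖s‖ := by
    have := Complex.re_le_norm s
    linarith
  have hns2 : tau s ≤ 3 * ‖s‖ := by
    have := Complex.abs_im_le_norm s
    unfold tau
    linarith
  refine ⟨?_, ?_⟩
  · unfold FF
    have hdd : DifferentiableAt ℂ (deriv riemannZeta₁) s :=
      (differentiable_riemannZeta₁.contDiff (n := 2)).differentiable_deriv_two s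
    have hdz : DifferentiableAt ℂ riemannZeta₁ s := differentiable_riemannZeta₁ s
    fun_prop (disch := assumption)
  · unfold FF
    rw [norm_mul, norm_neg, norm_div, norm_one]
    have e1 : ‖(1 : ℂ) + deriv riemannZeta₁ s / riemannZeta₁ s‖ ≤ (1 + C / c) * tau s ^ (5 * δ) := by
      have e2 : ‖deriv riemannZeta₁ s / riemannZeta₁ s‖ ≤ C / c * tau s ^ (5 * δ) := by
        rw [norm_div, div_le_iff₀ hZpos]
        calc ‖deriv riemannZeta₁ s‖ ≤ C * tau s ^ (1 + δ) := hup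
          _ = C / c * tau s ^ (5 * δ) * (c * tau s ^ (1 - 4 * δ)) := by
              have : tau s ^ (1 + δ) = tau s ^ (5 * δ) * tau s ^ (1 - 4 * δ) := by
                rw [← Real.rpow_add hτ]; congr 1; ring
              rw [this]
              field_simp
          _ ≤ _ := by gcongr
      have e3 : (1 : ℝ) ≤ tau s ^ (5 * δ) := Real.one_le_rpow hτ1 (by positivity)
      calc ‖(1 : ℂ) + deriv riemannZeta₁ s / riemannZeta₁ s‖
          ≤ ‖(1 : ℂ)‖ + ‖deriv riemannZeta₁ s / riemannZeta₁ s‖ := norm_add_le _ _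
        _ ≤ tau s ^ (5 * δ) + C / c * tau s ^ (5 * δ) := by
            rw [norm_one]; gcongr
        _ = _ := by ring
    have e4 : 1 / ‖s‖ ≤ 3 * tau s ^ (-1 : ℝ) := by
      rw [Real.rpow_neg_one, ← div_eq_mul_inv, div_le_div_iff₀ (by linarith) hτ]
      linarith
    calc 1 / ‖s‖ * ‖(1 : ℂ) + deriv riemannZeta₁ s / riemannZeta₁ s‖
        ≤ (3 * tau s ^ (-1 : ℝ)) * ((1 + C / c) * tau s ^ (5 * δ)) := by gcongr
      _ = 3 * (1 + C / c) * (tau s ^ (5 * δ) * tau s ^ (-1 : ℝ)) := by ring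
      _ = _ := by rw [← Real.rpow_add hτ]; rfl

/-- All derivatives of `FF` are bounded in the strip `1 ≤ Re s ≤ 3/2`. -/
lemma FF_iteratedDeriv_bound (j : ℕ) :
    ∃ C : ℝ, 0 < C ∧ ∀ s : ℂ, 1 ≤ s.re → s.re ≤ 3 / 2 → ‖iteratedDeriv j FF s‖ ≤ C := by
  set δ : ℝ := 1 / (10 * (j + 1)) with hδd
  have hj : (0 : ℝ) < j + 1 := by positivity
  have hδ : 0 < δ := by positivity
  have hδ1 : δ ≤ 1 / 10 := by
    rw [hδd]
    apply one_div_le_one_div_of_le (by norm_num)
    have : (0 : ℝ) ≤ j := by positivity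
    linarith
  obtain ⟨C, ρ, hC, hρ, hρ', h⟩ := FF_bound hδ hδ1
  refine ⟨j.factorial * (2 * C) / (ρ / 2) ^ j, by positivity, fun s hs hs2 => ?_⟩
  have hτ := tau_pos s
  have hτ1 := one_le_tau s
  have hτneg : tau s ^ (-(5 * δ)) ≤ 1 :=
    Real.rpow_le_one_of_one_le_of_nonpos hτ1 (by linarith)
  have hτneg0 : 0 < tau s ^ (-(5 * δ)) := by positivity
  set r : ℝ := ρ / 2 * tau s ^ (-(5 * δ)) with hr
  have hr0 : 0 < r := by positivity
  have hr1 : r ≤ 1 / 8 := by
    calc r ≤ (1 / 4) / 2 * 1 := by rw [hr]; gcongr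
      _ = 1 / 8 := by norm_num
  -- the closed ball is contained in the region
  have hball : ∀ w ∈ Metric.closedBall s r,
      DifferentiableAt ℂ FF w ∧ ‖FF w‖ ≤ C * tau w ^ (5 * δ - 1) ∧ tau s ≤ 2 * tau w := by
    intro w hw
    have hw' : ‖w - s‖ ≤ r := by simpa [Complex.dist_eq] using hw
    have h1 : tau w ≤ 2 * tau s := tau_le_two_mul (hw'.trans (by linarith))
    have h2 : tau s ≤ 2 * tau w := tau_le_two_mul (by rw [norm_sub_rev]; linarith)
    have hre := abs_re_le_norm (w - s)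
    rw [sub_re, abs_le] at hre
    have h3 : tau s ^ (-(5 * δ)) ≤ 2 * tau w ^ (-(5 * δ)) := by
      calc tau s ^ (-(5 * δ)) ≤ (tau w / 2) ^ (-(5 * δ)) := by
            refine Real.rpow_le_rpow_of_nonpos ?_ ?_ (by linarith)
            · have := tau_pos w; positivity
            · linarith
        _ = 2 ^ (5 * δ) * tau w ^ (-(5 * δ)) := by
            rw [Real.div_rpow (tau_pos w).le (by norm_num), Real.rpow_neg (by norm_num : (0 : ℝ) ≤ 2)]
            field_simp
        _ ≤ 2 ^ (1 : ℝ) * tau w ^ (-(5 * δ)) := by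
            have := tau_pos w
            gcongr
            · norm_num
            · linarith
        _ = _ := by rw [Real.rpow_one]
    have h4 : r ≤ ρ * tau w ^ (-(5 * δ)) := by
      calc r ≤ ρ / 2 * (2 * tau w ^ (-(5 * δ))) := by rw [hr]; gcongr
        _ = _ := by ring
    obtain ⟨h5, h6⟩ := h w (by linarith [hre.1]) (by linarith [hre.2])
    exact ⟨h5, h6, h2⟩
  have hdiff : DiffContOnCl ℂ FF (Metric.ball s r) := by
    have : DifferentiableOn ℂ FF (closure (Metric.ball s r)) := by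
      intro w hw
      rw [closure_ball s hr0.ne'] at hw
      exact (hball w hw).1.differentiableWithinAt
    exact this.diffContOnCl
  have hbd : ∀ w ∈ Metric.sphere s r, ‖FF w‖ ≤ 2 * C * tau s ^ (5 * δ - 1) := by
    intro w hw
    obtain ⟨_, h6, h7⟩ := hball w (Metric.sphere_subset_closedBall hw)
    have hτw := tau_pos w
    have h8 : tau w ^ (5 * δ - 1) ≤ 2 * tau s ^ (5 * δ - 1) := by
      calc tau w ^ (5 * δ - 1) ≤ (tau s / 2) ^ (5 * δ - 1) := by
            refine Real.rpow_le_rpow_of_nonpos (by positivity) (by linarith) (by linarith)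
        _ = tau s ^ (5 * δ - 1) * 2 ^ (1 - 5 * δ) := by
            rw [Real.div_rpow hτ.le (by norm_num), div_eq_mul_inv,
              ← Real.rpow_neg (by norm_num : (0 : ℝ) ≤ 2)]
            congr 2
            ring
        _ ≤ tau s ^ (5 * δ - 1) * 2 ^ (1 : ℝ) := by
            gcongr
            · norm_num
            · linarith
        _ = _ := by rw [Real.rpow_one]; ring
    calc ‖FF w‖ ≤ C * tau w ^ (5 * δ - 1) := h6
      _ ≤ C * (2 * tau s ^ (5 * δ - 1)) := by gcongr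
      _ = _ := by ring
  have hmain := Complex.norm_iteratedDeriv_le_of_forall_mem_sphere_norm_le j hr0 hdiff hbd
  refine hmain.trans ?_
  have hrj : r ^ j = (ρ / 2) ^ j * tau s ^ (-(5 * δ) * j) := by
    rw [hr, mul_pow, ← Real.rpow_natCast (tau s ^ (-(5 * δ))), ← Real.rpow_mul hτ.le]
  rw [hrj, div_le_div_iff₀ (by positivity) (by positivity)]
  have hkey : tau s ^ (5 * δ - 1) ≤ tau s ^ (-(5 * δ) * j) := by
    apply Real.rpow_le_rpow_of_exponent_le hτ1
    have : 5 * δ * (j + 1) = 1 / 2 := by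
      rw [hδd]; field_simp; norm_num
    linarith
  calc (j.factorial : ℝ) * (2 * C * tau s ^ (5 * δ - 1)) * (ρ / 2) ^ j
      ≤ (j.factorial : ℝ) * (2 * C * tau s ^ (-(5 * δ) * j)) * (ρ / 2) ^ j := by gcongr
    _ = _ := by ring

end Pool.Agent.Work.Shared.PNT
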