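import Mathlib
import Pool.Agent.Work.Shared.PNT.LogDeriv

namespace Pool.Agent.Work.Shared.PNT

open Complex MeasureTheory Set Filter Topology Asymptotics

/-- the normalised error term -/
noncomputable def hh (u : ℝ) : ℝ := Chebyshev.psi (Real.exp u) * Real.exp (-u) - 1

lemma psi_exp_le (u : ℝ) : Chebyshev.psi (Real.exp u) * Real.exp (-u) ≤ Real.log 4 + 4 := by
  have h := Chebyshev.psi_le_const_mul_self (Real.exp_pos u).le
  calc Chebyshev.psi (Real.exp u) * Real.exp (-u)
      ≤ (Real.log 4 + 4) * Real.exp u * Real.exp (-u) := by gcongr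
    _ = Real.log 4 + 4 := by rw [mul_assoc, ← Real.exp_add, add_neg_cancel, Real.exp_zero, mul_one]

lemma psi_exp_nonneg (u : ℝ) : 0 ≤ Chebyshev.psi (Real.exp u) * Real.exp (-u) :=
  mul_nonneg (Chebyshev.psi_nonneg _) (Real.exp_pos _).le

/-- the constant -/
noncomputable def cM : ℝ := Real.log 4 + 4

lemma four_le_cM : 4 ≤ cM := by
  unfold cM
  have := Real.log_nonneg (show (1 : ℝ) ≤ 4 by norm_num)
  linarith

lemma hh_bound (u : ℝ) : |hh u| ≤ cM := by
  have h1 := psi_exp_le u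
  have h2 := psi_exp_nonneg u
  have h3 := four_le_cM
  unfold hh cM at *
  rw [abs_le]
  constructor <;> linarith

lemma hh_le (u : ℝ) : hh u + 1 ≤ cM := by
  have h1 := psi_exp_le u
  unfold hh cM
  linarith

lemma neg_one_le_hh (u : ℝ) : 0 ≤ hh u + 1 := by
  have h1 := psi_exp_nonneg u
  unfold hh
  linarith

lemma measurable_hh : Measurable hh := by
  unfold hh
  have := Chebyshev.psi_mono.measurable
  fun_prop

/-- slow decrease -/
lemma hh_slow {u v : ℝ} (huv : u ≤ v) : hh u - cM * (v - u) ≤ hh v := by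
  have h1 : Chebyshev.psi (Real.exp u) ≤ Chebyshev.psi (Real.exp v) :=
    Chebyshev.psi_mono (Real.exp_le_exp.mpr huv)
  have h2 : (hh u + 1) * Real.exp (-(v - u)) ≤ hh v + 1 := by
    unfold hh
    rw [sub_add_cancel, sub_add_cancel, mul_assoc, ← Real.exp_add]
    have : -u + -(v - u) = -v := by ring
    rw [this]
    gcongr
  have h3 : 1 - (v - u) ≤ Real.exp (-(v - u)) := by
    have := Real.add_one_le_exp (-(v - u))
    linarith
  have h4 : (hh u + 1) * (1 - (v - u)) ≤ (hh u + 1) * Real.exp (-(v - u)) := by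
    have := neg_one_le_hh u
    gcongr
  have h5 : (hh u + 1) * (v - u) ≤ cM * (v - u) := by
    have := hh_le u
    have h0 : 0 ≤ v - u := by linarith
    gcongr
  linarith

/-- the integrand of the Laplace transform -/
noncomputable def lap (j : ℕ) (z : ℂ) (u : ℝ) : ℂ := (u : ℂ) ^ j * (hh u : ℂ) * cexp (-z * u)

lemma measurable_lap (j : ℕ) (z : ℂ) : Measurable (lap j z) := by
  unfold lap
  have := measurable_hh
  fun_prop

lemma norm_lap_le (j : ℕ) {z : ℂ} {b : ℝ} (hz : b ≤ z.re) {u : ℝ} (hu : 0 < u) :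
    ‖lap j z u‖ ≤ cM * (u ^ (j : ℝ) * Real.exp (-b * u ^ (1 : ℝ))) := by
  unfold lap
  rw [norm_mul, norm_mul, norm_pow, norm_real, norm_real, Complex.norm_exp,
    Real.norm_of_nonneg hu.le, Real.rpow_natCast, Real.rpow_one]
  have h1 := hh_bound u
  have h2 : (-z * (u : ℂ)).re ≤ -b * u := by
    simp only [mul_re, neg_re, ofReal_re, neg_im, ofReal_im, mul_zero, sub_zero]
    nlinarith
  rw [Real.norm_eq_abs]
  calc u ^ j * |hh u| * Real.exp (-z * (u : ℂ)).re
      ≤ u ^ j * cM * Real.exp (-b * u) := by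
        gcongr
        have := four_le_cM
        positivity
    _ = _ := by ring

lemma integrableOn_bound (j : ℕ) {b : ℝ} (hb : 0 < b) :
    IntegrableOn (fun u : ℝ => cM * (u ^ (j : ℝ) * Real.exp (-b * u ^ (1 : ℝ)))) (Ioi 0) := by
  have hj : (-1 : ℝ) < j := by
    have : (0 : ℝ) ≤ j := by positivity
    linarith
  exact (integrableOn_rpow_mul_exp_neg_mul_rpow hj one_pos hb).const_mul _

lemma integrableOn_lap (j : ℕ) {z : ℂ} (hz : 0 < z.re) : IntegrableOn (lap j z) (Ioi 0) := by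
  refine Integrable.mono' (integrableOn_bound j hz) (measurable_lap j z).aestronglyMeasurable ?_
  rw [ae_restrict_iff' measurableSet_Ioi]
  exact ae_of_all _ fun u hu => norm_lap_le j le_rfl hu

/-- the Laplace transform of `u ^ j * hh u` -/
noncomputable def LL (j : ℕ) (z : ℂ) : ℂ := ∫ u in Ioi (0 : ℝ), lap j z u

lemma LL_hasDerivAt (j : ℕ) {z : ℂ} (hz : 0 < z.re) : HasDerivAt (LL j) (-(LL (j + 1) z)) z := by
  have hz2 : 0 < z.re / 2 := by positivity
  have hs : Metric.ball z (z.re / 2) ∈ 𝓝 z := Metric.ball_mem_nhds z hz2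
  have hre : ∀ w ∈ Metric.ball z (z.re / 2), z.re / 2 ≤ w.re := by
    intro w hw
    have h1 : ‖w - z‖ < z.re / 2 := by simpa [Complex.dist_eq] using hw
    have h2 := abs_re_le_norm (w - z)
    rw [sub_re, abs_le] at h2
    linarith [h2.1]
  have h := hasDerivAt_integral_of_dominated_loc_of_deriv_le (μ := volume.restrict (Ioi (0 : ℝ)))
    (F := fun w u => lap j w u) (F' := fun w u => -(lap (j + 1) w u)) (x₀ := z) (s := Metric.ball z (z.re / 2))
    (bound := fun u : ℝ => cM * (u ^ ((j + 1 : ℕ) : ℝ) * Real.exp (-(z.re / 2) * u ^ (1 : ℝ)))) hs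
    (Eventually.of_forall fun w => (measurable_lap j w).aestronglyMeasurable)
    (integrableOn_lap j hz) (measurable_lap (j + 1) z).neg.aestronglyMeasurable
    (by
      rw [ae_restrict_iff' measurableSet_Ioi]
      refine ae_of_all _ fun u hu w hw => ?_
      rw [norm_neg]
      exact norm_lap_le (j + 1) (hre w hw) hu)
    (integrableOn_bound (j + 1) hz2)
    (by
      refine ae_of_all _ fun u w _ => ?_
      unfold lap
      have h1 : HasDerivAt (fun w : ℂ => -w * (u : ℂ)) (-1 * (u : ℂ)) w :=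
        (hasDerivAt_id w).neg.mul_const _
      have h2 := (h1.cexp).const_mul ((u : ℂ) ^ j * (hh u : ℂ))
      have e : -((u : ℂ) ^ (j + 1) * (hh u : ℂ) * cexp (-w * u)) =
          (u : ℂ) ^ j * (hh u : ℂ) * (cexp (-w * u) * (-1 * (u : ℂ))) := by ring
      rw [e]
      exact h2)
  have h2 := h.2
  have e : (∫ u in Ioi (0 : ℝ), -(lap (j + 1) z u)) = -(LL (j + 1) z) := by
    rw [integral_neg]; rfl
  rw [e] at h2
  exact h2

lemma exp_image_Ioi : Real.exp '' (Ioi 0) = Ioi 1 := by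
  ext x
  simp only [mem_image, mem_Ioi]
  constructor
  · rintro ⟨y, hy, rfl⟩
    exact Real.one_lt_exp_iff.mpr hy
  · intro hx
    exact ⟨Real.log x, Real.log_pos hx, Real.exp_log (by linarith)⟩

lemma exp_cpow_eq (u : ℝ) (w : ℂ) : ((Real.exp u : ℝ) : ℂ) ^ w = cexp (u * w) := by
  have h : ((Real.exp u : ℝ) : ℂ) ≠ 0 := by exact_mod_cast (Real.exp_pos u).ne'
  rw [cpow_def_of_ne_zero h, ← ofReal_log (Real.exp_pos u).le, Real.log_exp]

lemma psi_eq_sum_Icc_one (t : ℝ) :
    Chebyshev.psi t = ∑ k ∈ Finset.Icc 1 ⌊t⌋₊, ArithmeticFunction.vonMangoldt k := by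
  unfold Chebyshev.psi
  rfl

lemma integrableOn_psi_cpow {s : ℂ} (hs : 1 < s.re) :
    IntegrableOn (fun t : ℝ => (Chebyshev.psi t : ℂ) * (t : ℂ) ^ (-(s + 1))) (Ioi 1) := by
  have hb : IntegrableOn (fun t : ℝ => cM * t ^ (-s.re)) (Ioi 1) :=
    (integrableOn_Ioi_rpow_of_lt (by linarith) one_pos).const_mul _
  refine Integrable.mono' hb ?_ ?_
  · have h1 : Measurable fun t : ℝ => (Chebyshev.psi t : ℂ) := by
      have := Chebyshev.psi_mono.measurable
      fun_prop
    have h2 : Measurable fun t : ℝ => (t : ℂ) ^ (-(s + 1)) := by fun_prop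
    exact (h1.mul h2).aestronglyMeasurable
  · rw [ae_restrict_iff' measurableSet_Ioi]
    refine ae_of_all _ fun t (ht : 1 < t) => ?_
    have ht0 : 0 < t := by linarith
    rw [norm_mul, norm_real, Real.norm_of_nonneg (Chebyshev.psi_nonneg t),
      norm_cpow_eq_rpow_re_of_pos ht0]
    have h1 : (-(s + 1)).re = -s.re - 1 := by simp; ring
    rw [h1]
    have h2 := Chebyshev.psi_le_const_mul_self ht0.le
    calc Chebyshev.psi t * t ^ (-s.re - 1) ≤ cM * t * t ^ (-s.re - 1) := by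
          gcongr; exact h2
      _ = cM * t ^ (-s.re) := by
          rw [Real.rpow_sub_one ht0.ne']
          field_simp

lemma LSeries_eq_integral_psi {s : ℂ} (hs : 1 < s.re) :
    LSeries (fun n => (ArithmeticFunction.vonMangoldt n : ℂ)) s =
      s * ∫ t in Ioi (1 : ℝ), (Chebyshev.psi t : ℂ) * (t : ℂ) ^ (-(s + 1)) := by
  have h := LSeries_eq_mul_integral_of_nonneg (fun n => ArithmeticFunction.vonMangoldt n)
    (r := 1) (by norm_num) hs (by
      refine Asymptotics.IsBigO.of_bound cM (Eventually.of_forall fun n => ?_)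
      have h1 := Chebyshev.psi_le_const_mul_self (x := (n : ℝ)) (by positivity)
      have h2 := psi_eq_sum_Icc_one (n : ℝ)
      rw [Nat.floor_natCast] at h2
      rw [← h2, Real.norm_of_nonneg (Chebyshev.psi_nonneg _), Real.rpow_one,
        Real.norm_of_nonneg (by positivity)]
      exact h1) (fun n => ArithmeticFunction.vonMangoldt_nonneg)
  rw [h]
  congr 1
  refine setIntegral_congr_fun measurableSet_Ioi fun t _ => ?_
  rw [psi_eq_sum_Icc_one t]
  push_cast
  rfl

lemma LL_zero {z : ℂ} (hz : 0 < z.re) : LL 0 z = FF (1 + z) := by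
  have hs : 1 < (1 + z).re := by simp [hz]
  have hz0 : z ≠ 0 := by rintro rfl; simp at hz
  have hs0 : (1 + z) ≠ 0 := by
    intro h
    rw [h] at hs
    simp at hs
    linarith
  have hs1 : (1 + z) ≠ 1 := by
    intro h
    exact hz0 (by linear_combination h)
  -- change of variables
  have h1 : LL 0 z = ∫ t in Ioi (1 : ℝ), ((Chebyshev.psi t : ℂ) - t) * (t : ℂ) ^ (-(1 + z + 1)) := by
    have := integral_image_eq_integral_abs_deriv_smul (s := Ioi (0 : ℝ)) (f := Real.exp)
      (f' := Real.exp) measurableSet_Ioi (fun x _ => (Real.hasDerivAt_exp x).hasDerivWithinAt)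
      Real.exp_injective.injOn
      (fun t : ℝ => ((Chebyshev.psi t : ℂ) - t) * (t : ℂ) ^ (-(1 + z + 1)))
    rw [exp_image_Ioi] at this
    rw [this]
    unfold LL
    refine setIntegral_congr_fun measurableSet_Ioi fun u _ => ?_
    unfold lap hh
    simp only [pow_zero, one_mul, real_smul, abs_of_pos (Real.exp_pos u)]
    rw [exp_cpow_eq]
    push_cast
    have e1 : cexp (u : ℂ) ≠ 0 := Complex.exp_ne_zero _
    rw [show (u : ℂ) * (-(1 + z + 1)) = -(u : ℂ) + (-(u : ℂ) + -z * u) by ring, Complex.exp_add,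
      Complex.exp_add, Complex.exp_neg]
    field_simp
  have h2 : ∫ t in Ioi (1 : ℝ), ((Chebyshev.psi t : ℂ) - t) * (t : ℂ) ^ (-(1 + z + 1)) =
      (∫ t in Ioi (1 : ℝ), (Chebyshev.psi t : ℂ) * (t : ℂ) ^ (-(1 + z + 1))) -
        ∫ t in Ioi (1 : ℝ), (t : ℂ) ^ (-(1 + z)) := by
    rw [← integral_sub (integrableOn_psi_cpow hs) (integrableOn_Ioi_cpow_of_lt (by
      rw [neg_re]; linarith) one_pos)]
    refine setIntegral_congr_fun measurableSet_Ioi fun t (ht : 1 < t) => ?_
    have ht0 : (t : ℂ) ≠ 0 := by exact_mod_cast (by linarith : t ≠ 0)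
    rw [sub_mul]
    congr 1
    rw [show (-(1 + z) : ℂ) = -(1 + z + 1) + 1 by ring, cpow_add _ _ ht0, cpow_one]
    ring
  have h3 : ∫ t in Ioi (1 : ℝ), (t : ℂ) ^ (-(1 + z)) = 1 / z := by
    rw [integral_Ioi_cpow_of_lt (by rw [neg_re]; linarith) one_pos]
    simp
  have h4 := LSeries_eq_integral_psi hs
  have h5 := ArithmeticFunction.LSeries_vonMangoldt_eq_deriv_riemannZeta_div hs
  rw [h1, h2, h3]
  have hζ : riemannZeta (1 + z) ≠ 0 := riemannZeta_ne_zero_of_one_lt_re hs
  have h6 : (∫ t in Ioi (1 : ℝ), (Chebyshev.psi t : ℂ) * (t : ℂ) ^ (-(1 + z + 1))) =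
      (1 / (1 + z)) * (-deriv riemannZeta (1 + z) / riemannZeta (1 + z)) := by
    rw [← h5]
    have : LSeries (fun n => ((ArithmeticFunction.vonMangoldt n : ℝ) : ℂ)) (1 + z) =
      (1 + z) * ∫ t in Ioi (1 : ℝ), (Chebyshev.psi t : ℂ) * (t : ℂ) ^ (-(1 + z + 1)) := h4
    rw [this]
    field_simp
  rw [h6]
  unfold FF
  rw [Z_eq hs1]
  have h7 : deriv riemannZeta₁ (1 + z) = riemannZeta (1 + z) + z * deriv riemannZeta (1 + z) := by
    have hd : HasDerivAt riemannZeta (deriv riemannZeta (1 + z)) (1 + z) :=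
      (differentiableAt_riemannZeta hs1).hasDerivAt
    have hd2 : HasDerivAt (fun s : ℂ => (s - 1) * riemannZeta s)
        (1 * riemannZeta (1 + z) + (1 + z - 1) * deriv riemannZeta (1 + z)) (1 + z) :=
      ((hasDerivAt_id (1 + z)).sub_const 1).mul hd
    have he : riemannZeta₁ =ᶠ[𝓝 (1 + z)] fun s : ℂ => (s - 1) * riemannZeta s := by
      filter_upwards [isOpen_ne.mem_nhds hs1] with s hs
      exact Z_eq hs
    rw [he.deriv_eq, hd2.deriv]
    ring
  rw [h7]
  have e2 : (1 + z - 1 : ℂ) = z := by ring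
  rw [e2]
  field_simp
  ring

lemma LL_eq (j : ℕ) : ∀ z : ℂ, 0 < z.re → LL j z = (-1) ^ j * iteratedDeriv j FF (1 + z) := by
  induction j with
  | zero => intro z hz; rw [LL_zero hz]; simp
  | succ j ih =>
    intro z hz
    have h1 := LL_hasDerivAt j hz
    have he : LL j =ᶠ[𝓝 z] fun w => (-1) ^ j * iteratedDeriv j FF (1 + w) := by
      have : {w : ℂ | 0 < w.re} ∈ 𝓝 z := (isOpen_lt continuous_const continuous_re).mem_nhds hz
      filter_upwards [this] with w hw
      exact ih w hw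
    have h2 : deriv (LL j) z = (-1) ^ j * iteratedDeriv (j + 1) FF (1 + z) := by
      rw [he.deriv_eq, deriv_const_mul_field, deriv_comp_const_add, iteratedDeriv_succ]
    rw [h1.deriv] at h2
    rw [pow_succ]
    linear_combination -h2

/-- uniform bound for the Laplace transforms -/
lemma LL_bound (j : ℕ) : ∃ C : ℝ, 0 < C ∧ ∀ z : ℂ, 0 < z.re → z.re ≤ 1 / 2 → ‖LL j z‖ ≤ C := by
  obtain ⟨C, hC, h⟩ := FF_iteratedDeriv_bound j
  refine ⟨C, hC, fun z hz hz2 => ?_⟩
  rw [LL_eq j z hz, norm_mul, norm_pow, norm_neg, norm_one, one_pow, one_mul]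
  refine h (1 + z) ?_ ?_
  · simp [hz.le]
  · simp; linarith

end Pool.Agent.Work.Shared.PNT
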