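import Mathlib
import Pool.Agent.Work.Shared.PNT.Laplace

namespace Pool.Agent.Work.Shared.PNT

open Complex MeasureTheory Set Filter Topology Asymptotics FourierTransform
open scoped SchwartzMap Real ContDiff

/-- A smooth bump together with the function whose Fourier transform it is. -/
lemma exists_bump : ∃ (φ : ℝ → ℝ) (g : ℝ → ℂ) (B : ℝ), Continuous φ ∧ (∀ x, 0 ≤ φ x) ∧
    (∀ x, φ x ≤ B) ∧ (∀ x, 1 ≤ |x| → φ x = 0) ∧ (∫ x, φ x = 1) ∧ Integrable g ∧
    ∀ v : ℝ, ∫ ξ : ℝ, cexp (((-2 * π * ξ * v : ℝ) : ℂ) * I) • g ξ = (φ v : ℂ) := by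
  let b : ContDiffBump (0 : ℝ) := ⟨1 / 2, 1, by norm_num, by norm_num⟩
  set φ : ℝ → ℝ := b.normed volume with hφ
  have hc : HasCompactSupport φ := b.hasCompactSupport_normed
  have hcont : Continuous φ := b.continuous_normed
  have hsm : ContDiff ℝ ∞ φ := b.contDiff_normed
  have hcC : HasCompactSupport (fun x => (φ x : ℂ)) := hc.comp_left (g := fun t : ℝ => (t : ℂ)) (by simp)
  have hsmC : ContDiff ℝ ∞ (fun x => (φ x : ℂ)) := Complex.ofRealCLM.contDiff.comp hsm
  let F : 𝓢(ℝ, ℂ) := hcC.toSchwartzMap hsmC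
  let G : 𝓢(ℝ, ℂ) := 𝓕⁻ F
  have hFG : 𝓕 G = F := fourier_fourierInv_eq F
  obtain ⟨B, hB⟩ := hc.exists_bound_of_continuous hcont
  refine ⟨φ, G, B, hcont, fun x => b.nonneg_normed x, fun x => (le_abs_self _).trans (hB x), ?_,
    b.integral_normed, G.integrable, ?_⟩
  · intro x hx
    by_contra hne
    have : x ∈ Function.support φ := hne
    rw [hφ, b.support_normed_eq, Metric.mem_ball, Real.dist_eq, sub_zero] at this
    exact absurd this (not_lt.mpr hx)
  · intro v
    have h1 : (𝓕 G) v = (φ v : ℂ) := by rw [hFG]; rfl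
    have h2 : (𝓕 G) v = 𝓕 (G : ℝ → ℂ) v := by rw [SchwartzMap.fourier_coe]
    rw [← h1, h2, Real.fourier_real_eq_integral_exp_smul]

lemma integrable_indicator_lap (j : ℕ) {ε : ℝ} (hε : 0 < ε) :
    Integrable ((Ioi (0 : ℝ)).indicator (lap j (ε : ℂ))) := by
  rw [integrable_indicator_iff measurableSet_Ioi]
  exact integrableOn_lap j (by simpa using hε)

lemma fourier_indicator_lap (j : ℕ) (ε : ℝ) (ξ : ℝ) :
    𝓕 ((Ioi (0 : ℝ)).indicator (lap j (ε : ℂ))) ξ = LL j (ε + 2 * π * ξ * I) := by
  rw [Real.fourier_real_eq_integral_exp_smul]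
  unfold LL
  rw [← integral_indicator measurableSet_Ioi]
  refine integral_congr_ae (ae_of_all _ fun v => ?_)
  simp only
  by_cases hv : v ∈ Ioi (0 : ℝ)
  · rw [indicator_of_mem hv, indicator_of_mem hv]
    unfold lap
    rw [smul_eq_mul]
    have : cexp (-(ε + 2 * π * ξ * I) * v) =
        cexp (((-2 * π * v * ξ : ℝ) : ℂ) * I) * cexp (-(ε : ℂ) * v) := by
      rw [← Complex.exp_add]
      congr 1
      push_cast
      ring
    rw [this]
    ring
  · rw [indicator_of_notMem hv, indicator_of_notMem hv, smul_zero]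

/-- The smoothed test. -/
lemma exists_test (j : ℕ) {φ : ℝ → ℝ} {g : ℝ → ℂ} (hg : Integrable g)
    (hgφ : ∀ v : ℝ, ∫ ξ : ℝ, cexp (((-2 * π * ξ * v : ℝ) : ℂ) * I) • g ξ = (φ v : ℂ)) :
    ∃ C : ℝ, 0 < C ∧ ∀ ε T U : ℝ, 0 < ε → ε ≤ 1 / 2 → 1 ≤ T →
      |∫ u in Ioi (0 : ℝ), u ^ j * hh u * Real.exp (-ε * u) * (T * φ (T * (u - U)))| ≤ C * T := by
  obtain ⟨C, hC, hL⟩ := LL_bound j
  set N : ℝ := ∫ ξ, ‖g ξ‖ with hN
  have hN0 : 0 ≤ N := integral_nonneg fun _ => norm_nonneg _
  refine ⟨C * (N + 1), by positivity, fun ε T U hε hε2 hT => ?_⟩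
  have hT0 : 0 < T := by linarith
  set w : ℝ → ℂ := (Ioi (0 : ℝ)).indicator (lap j (ε : ℂ)) with hw
  have hwi : Integrable w := integrable_indicator_lap j hε
  set G : ℝ → ℂ := fun ξ => cexp (((2 * π * ξ * U : ℝ) : ℂ) * I) * g (ξ / T) with hG
  have hgT : Integrable (fun ξ => g (ξ / T)) := hg.comp_div hT0.ne'
  have hGi : Integrable G := by
    refine hgT.bdd_mul (c := 1) ?_ ?_
    · apply Continuous.aestronglyMeasurable
      fun_prop
    · refine ae_of_all _ fun ξ => ?_
      rw [Complex.norm_exp_ofReal_mul_I]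
  have key : ∫ ξ, (𝓕 w ξ) • G ξ = ∫ u, w u • 𝓕 G u := by
    simpa using! VectorFourier.integral_fourierIntegral_smul_eq_flip (L := innerₗ ℝ)
      Real.continuous_fourierChar continuous_inner hwi hGi
  -- the Fourier transform of G
  have hFG : ∀ u, 𝓕 G u = ((T * φ (T * (u - U)) : ℝ) : ℂ) := by
    intro u
    rw [Real.fourier_real_eq_integral_exp_smul]
    have h1 := Measure.integral_comp_div
      (fun η : ℝ => cexp (((-2 * π * η * (T * (u - U)) : ℝ) : ℂ) * I) • g η) T
    rw [hgφ, abs_of_pos hT0] at h1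
    rw [ofReal_mul, ← real_smul (x := T), ← h1]
    refine integral_congr_ae (ae_of_all _ fun ξ => ?_)
    simp only [hG, smul_eq_mul]
    rw [← mul_assoc, ← Complex.exp_add]
    congr 2
    rw [← add_mul, ← ofReal_add]
    congr 2
    field_simp
    ring
  have hreal : ∫ u, w u • 𝓕 G u =
      ((∫ u in Ioi (0 : ℝ), u ^ j * hh u * Real.exp (-ε * u) * (T * φ (T * (u - U))) : ℝ) : ℂ) := by
    rw [← integral_complex_ofReal, ← integral_indicator measurableSet_Ioi]
    refine integral_congr_ae (ae_of_all _ fun u => ?_)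
    simp only [hFG]
    by_cases hu : u ∈ Ioi (0 : ℝ)
    · rw [hw, indicator_of_mem hu, indicator_of_mem hu]
      unfold lap
      rw [smul_eq_mul]
      push_cast
      ring
    · rw [hw, indicator_of_notMem hu, indicator_of_notMem hu, zero_smul]
  have hbound : ‖∫ ξ, (𝓕 w ξ) • G ξ‖ ≤ C * (T * N) := by
    have h2 : ∫ ξ, C * ‖g (ξ / T)‖ = C * (T * N) := by
      rw [integral_const_mul, Measure.integral_comp_div (fun η : ℝ => ‖g η‖) T, abs_of_pos hT0,
        smul_eq_mul]
    rw [← h2]
    refine norm_integral_le_of_norm_le (hgT.norm.const_mul C) (ae_of_all _ fun ξ => ?_)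
    rw [norm_smul, hw, fourier_indicator_lap, hG]
    simp only [norm_mul, Complex.norm_exp_ofReal_mul_I, one_mul]
    gcongr
    refine hL _ ?_ ?_
    · simpa using hε
    · simpa using hε2
  rw [key, hreal, norm_real, Real.norm_eq_abs] at hbound
  refine hbound.trans ?_
  calc C * (T * N) = C * N * T := by ring
    _ ≤ C * (N + 1) * T := by gcongr; linarith

/-- The one-sided Tauberian step. -/
lemma test_lower (j : ℕ) {φ : ℝ → ℝ} {B : ℝ} (hcont : Continuous φ) (h0 : ∀ x, 0 ≤ φ x)
    (hB : ∀ x, φ x ≤ B) (hsupp : ∀ x, 1 ≤ |x| → φ x = 0) (hint : ∫ x, φ x = 1)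
    {ε T U m σ : ℝ} (hε : 0 < ε) (hT : 1 ≤ T) (hU : 1 / T < U) (hm : 0 ≤ m)
    (hmin : ∀ u, U - 1 / T ≤ u → u ≤ U + 1 / T → m ≤ σ * hh u) :
    m * (U - 1 / T) ^ j * Real.exp (-ε * (U + 1 / T)) ≤
      σ * ∫ u in Ioi (0 : ℝ), u ^ j * hh u * Real.exp (-ε * u) * (T * φ (T * (u - U))) := by
  have hT0 : 0 < T := by linarith
  have ha : 0 < U - 1 / T := by linarith
  -- support
  have hs : ∀ u, φ (T * (u - U)) ≠ 0 → U - 1 / T ≤ u ∧ u ≤ U + 1 / T := by
    intro u hu
    by_contra hcon
    apply hu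
    apply hsupp
    by_contra hlt
    rw [not_le, abs_lt] at hlt
    apply hcon
    have h1 : -(1 / T) < u - U := by
      rw [← neg_div, div_lt_iff₀ hT0]
      linarith [hlt.1, mul_comm T (u - U)]
    have h2 : u - U < 1 / T := by
      rw [lt_div_iff₀ hT0]
      linarith [hlt.2, mul_comm T (u - U)]
    constructor <;> linarith
  have hφT : Continuous fun u : ℝ => T * φ (T * (u - U)) := by fun_prop
  have hint1 : ∫ u, T * φ (T * (u - U)) = 1 := by
    rw [integral_const_mul]
    have h1 : ∫ u, φ (T * (u - U)) = ∫ u, φ (T * u) :=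
      integral_sub_right_eq_self (fun u => φ (T * u)) U
    rw [h1, Measure.integral_comp_mul_left, hint, abs_of_pos (inv_pos.mpr hT0), smul_eq_mul, mul_one]
    field_simp
  have hφi : Integrable fun u : ℝ => T * φ (T * (u - U)) := by
    by_contra hni
    rw [integral_undef hni] at hint1
    exact zero_ne_one hint1
  have hint2 : ∫ u in Ioi (0 : ℝ), T * φ (T * (u - U)) = 1 := by
    rw [← hint1, ← integral_indicator measurableSet_Ioi]
    refine integral_congr_ae (ae_of_all _ fun u => ?_)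
    simp only
    by_cases hu : u ∈ Ioi (0 : ℝ)
    · rw [indicator_of_mem hu]
    · rw [indicator_of_notMem hu]
      by_cases hz : φ (T * (u - U)) = 0
      · rw [hz, mul_zero]
      · exact absurd (lt_of_lt_of_le ha (hs u hz).1) hu
  -- integrability of the main integrand
  have hmain : IntegrableOn (fun u : ℝ => u ^ j * hh u * Real.exp (-ε * u) *
      (T * φ (T * (u - U)))) (Ioi 0) := by
    have h1 : IntegrableOn (fun u : ℝ => u ^ j * hh u * Real.exp (-ε * u)) (Ioi 0) := by
      refine Integrable.mono' (integrableOn_bound j hε) ?_ ?_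
      · have := measurable_hh
        apply Measurable.aestronglyMeasurable
        fun_prop
      · rw [ae_restrict_iff' measurableSet_Ioi]
        refine ae_of_all _ fun u (hu : 0 < u) => ?_
        rw [norm_mul, norm_mul, Real.norm_of_nonneg (pow_nonneg hu.le j), Real.norm_eq_abs,
          Real.norm_of_nonneg (Real.exp_pos _).le, Real.rpow_natCast, Real.rpow_one]
        have := hh_bound u
        calc u ^ j * |hh u| * Real.exp (-ε * u) ≤ u ^ j * cM * Real.exp (-ε * u) := by gcongr
          _ = _ := by ring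
    refine h1.mul_bdd (c := T * B) hφT.aestronglyMeasurable (ae_of_all _ fun u => ?_)
    rw [Real.norm_of_nonneg (mul_nonneg hT0.le (h0 _))]
    have := hB (T * (u - U))
    gcongr
  rw [← integral_const_mul]
  have e : m * (U - 1 / T) ^ j * Real.exp (-ε * (U + 1 / T)) =
      ∫ u in Ioi (0 : ℝ), m * (U - 1 / T) ^ j * Real.exp (-ε * (U + 1 / T)) *
        (T * φ (T * (u - U))) := by
    rw [integral_const_mul, hint2, mul_one]
  rw [e]
  refine setIntegral_mono_on (hφi.integrableOn.const_mul _) (hmain.const_mul _)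
    measurableSet_Ioi fun u (hu : 0 < u) => ?_
  by_cases hz : φ (T * (u - U)) = 0
  · rw [hz]; simp
  · obtain ⟨h1, h2⟩ := hs u hz
    have h3 := hmin u h1 h2
    have h4 : 0 ≤ T * φ (T * (u - U)) := mul_nonneg hT0.le (h0 _)
    calc m * (U - 1 / T) ^ j * Real.exp (-ε * (U + 1 / T)) * (T * φ (T * (u - U)))
        ≤ (σ * hh u) * u ^ j * Real.exp (-ε * u) * (T * φ (T * (u - U))) := by
          have h5 : 0 ≤ σ * hh u := hm.trans h3
          have h6 : -ε * (U + 1 / T) ≤ -ε * u := by nlinarith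
          gcongr
      _ = _ := by ring

/-- Quantitative decay of the normalised error. -/
lemma hh_decay (k : ℕ) : ∃ C : ℝ, 0 < C ∧ ∀ U : ℝ, 1 ≤ U → |hh U| * U ^ k ≤ C := by
  obtain ⟨φ, g, B, hcont, h0, hB, hsupp, hint, hg, hgφ⟩ := exists_bump
  obtain ⟨C, hC, htest⟩ := exists_test (2 * k) hg hgφ
  have hcM := four_le_cM
  refine ⟨cM * 4 ^ k + 2 * cM + C * Real.exp 3 * 2 ^ (2 * k), by positivity, fun U hU => ?_⟩
  rcases le_or_gt U 4 with hU4 | hU4
  · have h1 := hh_bound U
    have h2 : |hh U| * U ^ k ≤ cM * 4 ^ k := by gcongr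
    have h3 : 0 ≤ 2 * cM + C * Real.exp 3 * 2 ^ (2 * k) := by positivity
    linarith
  · -- main case
    have hU0 : 0 < U := by linarith
    set T : ℝ := U ^ k with hT
    have hT1 : 1 ≤ T := one_le_pow₀ hU
    have hT0 : 0 < T := by linarith
    have hTinv : 1 / T ≤ 1 := by rw [div_le_one hT0]; exact hT1
    have hTinv0 : 0 < 1 / T := by positivity
    have hε : 0 < 1 / U := by positivity
    have hε2 : 1 / U ≤ 1 / 2 := by
      apply one_div_le_one_div_of_le <;> linarith
    -- the two sided claim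
    have claim : ∀ (σ U' m : ℝ), |σ| = 1 → U / 2 ≤ U' - 1 / T → U' + 1 / T ≤ U + 2 → 0 ≤ m →
        (∀ u, U' - 1 / T ≤ u → u ≤ U' + 1 / T → m ≤ σ * hh u) →
        m * U ^ k ≤ C * Real.exp 3 * 2 ^ (2 * k) := by
      intro σ U' m hσ ha hb hm hmin
      have h1 := test_lower (2 * k) hcont h0 hB hsupp hint hε hT1 (U := U') (by linarith) hm hmin
      have h2 := htest (1 / U) T U' hε hε2 hT1
      set J := ∫ u in Ioi (0 : ℝ), u ^ (2 * k) * hh u * Real.exp (-(1 / U) * u) *
        (T * φ (T * (u - U'))) with hJ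
      have h3 : σ * J ≤ C * T := by
        calc σ * J ≤ |σ * J| := le_abs_self _
          _ = |J| := by rw [abs_mul, hσ, one_mul]
          _ ≤ C * T := h2
      have h4 : Real.exp (-3) ≤ Real.exp (-(1 / U) * (U' + 1 / T)) := by
        apply Real.exp_le_exp.mpr
        have : 1 / U * (U' + 1 / T) ≤ 1 / U * (3 * U) := by gcongr; linarith
        have e : 1 / U * (3 * U) = 3 := by field_simp
        linarith
      have h5 : m * (U / 2) ^ (2 * k) * Real.exp (-3) ≤ C * T := by
        refine le_trans ?_ (h1.trans h3)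
        gcongr
        exact mul_nonneg hm (pow_nonneg (by linarith) _)
      have h6 : m * (U / 2) ^ (2 * k) ≤ C * T * Real.exp 3 := by
        have h7 := mul_le_mul_of_nonneg_right h5 (Real.exp_pos 3).le
        rwa [mul_assoc, ← Real.exp_add, neg_add_cancel, Real.exp_zero, mul_one] at h7
      rw [div_pow, mul_div_assoc', div_le_iff₀ (by positivity)] at h6
      have h8 : m * U ^ k * T ≤ C * Real.exp 3 * 2 ^ (2 * k) * T := by
        calc m * U ^ k * T = m * U ^ (2 * k) := by rw [hT, two_mul, pow_add]; ring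
          _ ≤ C * T * Real.exp 3 * 2 ^ (2 * k) := h6
          _ = _ := by ring
      exact le_of_mul_le_mul_right h8 hT0
    have hTU : 1 / T * U ^ k = 1 := by rw [hT]; field_simp
    -- upper bound
    have hup : hh U * U ^ k ≤ 2 * cM + C * Real.exp 3 * 2 ^ (2 * k) := by
      rcases le_or_gt (hh U) (2 * cM * (1 / T)) with h | h
      · have h1 : hh U * U ^ k ≤ 2 * cM * (1 / T) * U ^ k := by gcongr
        rw [mul_assoc, hTU, mul_one] at h1
        have h3 : 0 ≤ C * Real.exp 3 * 2 ^ (2 * k) := by positivity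
        linarith
      · have h1 := claim 1 (U + 1 / T) (hh U - 2 * cM * (1 / T)) (by simp) (by linarith)
          (by linarith) (by linarith) (fun u hu1 hu2 => by
            rw [one_mul]
            have h2 := hh_slow (u := U) (v := u) (by linarith)
            have h3 : cM * (u - U) ≤ cM * (2 * (1 / T)) := by
              gcongr
              linarith
            linarith)
        rw [sub_mul, mul_assoc (2 * cM), hTU] at h1
        linarith
    -- lower bound
    have hlow : -hh U * U ^ k ≤ 2 * cM + C * Real.exp 3 * 2 ^ (2 * k) := by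
      rcases le_or_gt (-hh U) (2 * cM * (1 / T)) with h | h
      · have h1 : -hh U * U ^ k ≤ 2 * cM * (1 / T) * U ^ k := by gcongr
        rw [mul_assoc (2 * cM), hTU, mul_one] at h1
        have h3 : 0 ≤ C * Real.exp 3 * 2 ^ (2 * k) := by positivity
        linarith
      · have h1 := claim (-1) (U - 1 / T) (-hh U - 2 * cM * (1 / T)) (by simp) (by linarith)
          (by linarith) (by linarith) (fun u hu1 hu2 => by
            have h2 := hh_slow (u := u) (v := U) (by linarith)
            have h3 : cM * (U - u) ≤ cM * (2 * (1 / T)) := by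
              gcongr
              linarith
            linarith)
        rw [sub_mul, mul_assoc (2 * cM), hTU] at h1
        linarith
    have h9 : |hh U| * U ^ k ≤ 2 * cM + C * Real.exp 3 * 2 ^ (2 * k) := by
      rcases abs_cases (hh U) with h | h
      · rw [h.1]; exact hup
      · rw [h.1]; exact hlow
    have h10 : 0 ≤ cM * 4 ^ k := by positivity
    linarith

/-- **Prime number theorem with arbitrary logarithmic power saving**, for `ψ`. -/
theorem psi_sub_self_le (A : ℝ) : ∃ C : ℝ, 0 < C ∧ ∀ x : ℝ, 2 ≤ x →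
    |Chebyshev.psi x - x| ≤ C * x / (Real.log x) ^ A := by
  obtain ⟨k, hk⟩ := exists_nat_ge A
  obtain ⟨C, hC, h⟩ := hh_decay k
  have hl2 : 0 < Real.log 2 := Real.log_pos (by norm_num)
  have hcM := four_le_cM
  refine ⟨C + cM * (1 + Real.log 2 ^ A), by positivity, fun x hx => ?_⟩
  have hx0 : 0 < x := by linarith
  have hlx : Real.log 2 ≤ Real.log x := Real.log_le_log (by norm_num) hx
  have hlx0 : 0 < Real.log x := by linarith
  have e : |Chebyshev.psi x - x| = x * |hh (Real.log x)| := by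
    unfold hh
    rw [Real.exp_log hx0, Real.exp_neg, Real.exp_log hx0]
    nth_rewrite 3 [← abs_of_pos hx0]
    rw [← abs_mul]
    congr 1
    field_simp
  have hmain : |hh (Real.log x)| * Real.log x ^ A ≤ C + cM * (1 + Real.log 2 ^ A) := by
    rcases le_or_gt 1 (Real.log x) with h1 | h1
    · have h2 := h (Real.log x) h1
      have h3 : Real.log x ^ A ≤ Real.log x ^ k := by
        rw [← Real.rpow_natCast]
        exact Real.rpow_le_rpow_of_exponent_le h1 hk
      have h4 : |hh (Real.log x)| * Real.log x ^ A ≤ |hh (Real.log x)| * Real.log x ^ k := by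
        gcongr
      have h5 : 0 ≤ cM * (1 + Real.log 2 ^ A) := by positivity
      linarith
    · have h2 := hh_bound (Real.log x)
      have h3 : Real.log x ^ A ≤ 1 + Real.log 2 ^ A := by
        rcases le_or_gt 0 A with hA | hA
        · have h4 : Real.log x ^ A ≤ 1 := Real.rpow_le_one hlx0.le h1.le hA
          have h5 : 0 ≤ Real.log 2 ^ A := by positivity
          linarith
        · have h4 : Real.log x ^ A ≤ Real.log 2 ^ A :=
            Real.rpow_le_rpow_of_nonpos hl2 hlx hA.le
          linarith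
      have h6 : |hh (Real.log x)| * Real.log x ^ A ≤ cM * (1 + Real.log 2 ^ A) := by gcongr
      linarith
  rw [e, le_div_iff₀ (by positivity)]
  calc x * |hh (Real.log x)| * Real.log x ^ A = x * (|hh (Real.log x)| * Real.log x ^ A) := by ring
    _ ≤ x * (C + cM * (1 + Real.log 2 ^ A)) := by gcongr
    _ = _ := by ring

/-- `√x (log x)^(1+A) ≪ x` in a convenient form -/
lemma sqrt_mul_log_le (A : ℝ) : ∃ C : ℝ, 0 < C ∧ ∀ x : ℝ, 2 ≤ x →
    2 * x.sqrt * Real.log x ≤ C * x / (Real.log x) ^ A := by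
  have hl2 : 0 < Real.log 2 := Real.log_pos (by norm_num)
  obtain ⟨k, hk⟩ := exists_nat_ge (1 + A)
  -- log x ^ k ≤ k! x^{1/2} 2^k
  have h1 : ∀ x : ℝ, 2 ≤ x → Real.log x ^ k ≤ k.factorial * 2 ^ k * x.sqrt := by
    intro x hx
    have hx0 : 0 < x := by linarith
    have h2 := Real.pow_div_factorial_le_exp (Real.log x / 2) (by
      have := Real.log_nonneg (show (1 : ℝ) ≤ x by linarith)
      positivity) k
    have h3 : Real.exp (Real.log x / 2) = x.sqrt := by
      rw [Real.sqrt_eq_rpow, Real.rpow_def_of_pos hx0]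
      congr 1
      ring
    rw [h3, div_pow, div_div, div_le_iff₀ (by positivity)] at h2
    linarith
  refine ⟨2 * (k.factorial * 2 ^ k + (1 + Real.log 2 ^ (1 + A))), by positivity, fun x hx => ?_⟩
  have hx0 : 0 < x := by linarith
  have hlx : Real.log 2 ≤ Real.log x := Real.log_le_log (by norm_num) hx
  have hlx0 : 0 < Real.log x := by linarith
  have hsq : x.sqrt * x.sqrt = x := Real.mul_self_sqrt hx0.le
  have hsq1 : 1 ≤ x.sqrt := Real.one_le_sqrt.mpr (by linarith)
  have hkey : Real.log x ^ (1 + A) ≤ (k.factorial * 2 ^ k + (1 + Real.log 2 ^ (1 + A))) * x.sqrt := by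
    rcases le_or_gt 1 (Real.log x) with h4 | h4
    · have h5 : Real.log x ^ (1 + A) ≤ Real.log x ^ k := by
        rw [← Real.rpow_natCast]
        exact Real.rpow_le_rpow_of_exponent_le h4 hk
      have h6 := h1 x hx
      have h7 : 0 ≤ (1 + Real.log 2 ^ (1 + A)) * x.sqrt := by positivity
      linarith
    · have h3 : Real.log x ^ (1 + A) ≤ 1 + Real.log 2 ^ (1 + A) := by
        rcases le_or_gt 0 (1 + A) with hA | hA
        · have h4 : Real.log x ^ (1 + A) ≤ 1 := Real.rpow_le_one hlx0.le h4.le hA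
          have h5 : 0 ≤ Real.log 2 ^ (1 + A) := by positivity
          linarith
        · have h4 : Real.log x ^ (1 + A) ≤ Real.log 2 ^ (1 + A) :=
            Real.rpow_le_rpow_of_nonpos hl2 hlx hA.le
          linarith
      have h8 : (1 + Real.log 2 ^ (1 + A)) * 1 ≤ (1 + Real.log 2 ^ (1 + A)) * x.sqrt := by gcongr
      have h9 : 0 ≤ k.factorial * 2 ^ k * x.sqrt := by positivity
      linarith
  rw [le_div_iff₀ (by positivity)]
  calc 2 * x.sqrt * Real.log x * Real.log x ^ A = 2 * x.sqrt * Real.log x ^ (1 + A) := by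
        rw [Real.rpow_add hlx0, Real.rpow_one]; ring
    _ ≤ 2 * x.sqrt * ((k.factorial * 2 ^ k + (1 + Real.log 2 ^ (1 + A))) * x.sqrt) := by gcongr
    _ = 2 * (k.factorial * 2 ^ k + (1 + Real.log 2 ^ (1 + A))) * (x.sqrt * x.sqrt) := by ring
    _ = _ := by rw [hsq]

/-- **Prime number theorem with arbitrary logarithmic power saving**, for `θ`. -/
theorem theta_sub_self_le (A : ℝ) : ∃ C : ℝ, 0 < C ∧ ∀ x : ℝ, 2 ≤ x →
    |Chebyshev.theta x - x| ≤ C * x / (Real.log x) ^ A := by
  obtain ⟨C₁, hC₁, h1⟩ := psi_sub_self_le A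
  obtain ⟨C₂, hC₂, h2⟩ := sqrt_mul_log_le A
  refine ⟨C₁ + C₂, by positivity, fun x hx => ?_⟩
  have h3 := Chebyshev.abs_psi_sub_theta_le_sqrt_mul_log (x := x) (by linarith)
  have h4 : |Chebyshev.theta x - x| ≤ |Chebyshev.psi x - x| + |Chebyshev.psi x - Chebyshev.theta x| := by
    have e : Chebyshev.theta x - x = (Chebyshev.psi x - x) - (Chebyshev.psi x - Chebyshev.theta x) := by
      ring
    rw [e]
    exact abs_sub _ _
  calc |Chebyshev.theta x - x| ≤ C₁ * x / (Real.log x) ^ A + C₂ * x / (Real.log x) ^ A := by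
        linarith [h1 x hx, h2 x hx]
    _ = _ := by ring

end Pool.Agent.Work.Shared.PNT
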