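import Mathlib
import Pool.Agent.Work.Shared.PNT.Tauber

/-!
Consequences of the prime number theorem with arbitrary logarithmic power saving:
`primeCounting_sub_li_le` and the count `count_pieces` of primes in a finite union of intervals.
-/

namespace Pool.Agent.Work.Shared.PNT

open MeasureTheory Set
open scoped Real

/-- Powers of the logarithm are dominated by the square root. -/
lemma log_rpow_le_sqrt (B : ℝ) : ∃ C : ℝ, 0 < C ∧ ∀ x : ℝ, 2 ≤ x →
    (Real.log x) ^ B ≤ C * √x := by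
  obtain ⟨C, hC, h⟩ := sqrt_mul_log_le (B - 1)
  refine ⟨C, hC, fun x hx => ?_⟩
  have hx0 : 0 < x := by linarith
  have hl : 0 < Real.log x := Real.log_pos (by linarith)
  have hs : 0 < √x := Real.sqrt_pos.mpr hx0
  have h1 := h x hx
  rw [le_div_iff₀ (by positivity)] at h1
  have e1 : 2 * √x * Real.log x * Real.log x ^ (B - 1) = 2 * √x * Real.log x ^ B := by
    rw [Real.rpow_sub_one hl.ne']
    field_simp
  rw [e1] at h1
  have e2 : C * x = C * √x * √x := by rw [mul_assoc, Real.mul_self_sqrt hx0.le]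
  rw [e2] at h1
  have h3 : 0 ≤ Real.log x ^ B := by positivity
  have h2 : Real.log x ^ B * √x ≤ (C * √x) * √x := by nlinarith
  exact le_of_mul_le_mul_right h2 hs

/-- `s / (log s)^A` is almost increasing. -/
lemma almost_mono (A : ℝ) : ∃ C : ℝ, 0 < C ∧ ∀ s t : ℝ, 2 ≤ s → s ≤ t →
    s / (Real.log s) ^ A ≤ C * (t / (Real.log t) ^ A) := by
  have hl2 : 0 < Real.log 2 := Real.log_pos (by norm_num)
  rcases le_or_gt A 0 with hA | hA
  · refine ⟨1, one_pos, fun s t hs hst => ?_⟩
    have hls : 0 < Real.log s := Real.log_pos (by linarith)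
    have h1 : Real.log s ≤ Real.log t := Real.log_le_log (by linarith) hst
    have h2 : Real.log s ^ (-A) ≤ Real.log t ^ (-A) := Real.rpow_le_rpow hls.le h1 (by linarith)
    rw [div_eq_mul_inv, div_eq_mul_inv, ← Real.rpow_neg hls.le, ← Real.rpow_neg (by linarith), one_mul]
    have h3 : 0 ≤ Real.log s ^ (-A) := by positivity
    nlinarith
  · obtain ⟨C, hC, h⟩ := log_rpow_le_sqrt A
    refine ⟨2 * C / Real.log 2 ^ A, by positivity, fun s t hs hst => ?_⟩
    have hs0 : 0 < s := by linarith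
    have ht0 : 0 < t := by linarith
    have hls : 0 < Real.log s := Real.log_pos (by linarith)
    have hlt : 0 < Real.log t := Real.log_pos (by linarith)
    have hv : 1 ≤ t / s := by rwa [le_div_iff₀ hs0, one_mul]
    have h1 := h (2 * (t / s)) (by linarith)
    have h2 : √(2 * (t / s)) ≤ 2 * (t / s) := by
      rw [Real.sqrt_le_left (by positivity)]
      nlinarith
    have h3 : Real.log t * Real.log 2 ≤ Real.log s * Real.log (2 * (t / s)) := by
      have e1 : Real.log t = Real.log s + Real.log (t / s) := by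
        rw [← Real.log_mul (by positivity) (by positivity)]
        congr 1
        field_simp
      have e2 : Real.log (2 * (t / s)) = Real.log 2 + Real.log (t / s) := by
        rw [Real.log_mul (by norm_num) (by positivity)]
      have h4 : Real.log 2 ≤ Real.log s := Real.log_le_log (by norm_num) hs
      have h5 : 0 ≤ Real.log (t / s) := Real.log_nonneg hv
      rw [e1, e2]
      nlinarith
    have h6 : (Real.log t * Real.log 2) ^ A ≤ (Real.log s * Real.log (2 * (t / s))) ^ A :=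
      Real.rpow_le_rpow (by positivity) h3 hA.le
    rw [Real.mul_rpow hlt.le hl2.le, Real.mul_rpow hls.le
      (Real.log_nonneg (by linarith))] at h6
    have h7 : Real.log t ^ A * Real.log 2 ^ A ≤ Real.log s ^ A * (C * (2 * (t / s))) := by
      refine h6.trans ?_
      gcongr
      exact h1.trans (by gcongr)
    rw [← mul_div_assoc, div_le_div_iff₀ (by positivity) (by positivity)]
    have e3 : 2 * C / Real.log 2 ^ A * t * Real.log s ^ A =
        (Real.log s ^ A * (C * (2 * (t / s)))) / Real.log 2 ^ A * s := by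
      field_simp
    rw [e3]
    have h8 : Real.log t ^ A ≤ (Real.log s ^ A * (C * (2 * (t / s)))) / Real.log 2 ^ A := by
      rw [le_div_iff₀ (by positivity)]
      exact h7
    nlinarith

lemma one_le_const_mul (A : ℝ) : ∃ C : ℝ, 0 < C ∧ ∀ t : ℝ, 2 ≤ t →
    1 ≤ C * (t / (Real.log t) ^ A) := by
  obtain ⟨C, hC, h⟩ := almost_mono A
  have hl2 : 0 < Real.log 2 := Real.log_pos (by norm_num)
  refine ⟨C / (2 / Real.log 2 ^ A), by positivity, fun t ht => ?_⟩
  have h1 := h 2 t le_rfl ht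
  rw [div_mul_eq_mul_div, le_div_iff₀ (by positivity), one_mul]
  exact h1

lemma intervalIntegrable_log_rpow (B : ℝ) {a b : ℝ} (ha : 1 < a) (hb : 1 < b) :
    IntervalIntegrable (fun t => (Real.log t) ^ B) volume a b := by
  refine ContinuousOn.intervalIntegrable fun t ht => ContinuousAt.continuousWithinAt ?_
  rw [Set.mem_uIcc] at ht
  have h1 : 1 < t := by
    rcases ht with h | h
    · linarith [h.1]
    · linarith [h.1]
  have h2 : Real.log t ≠ 0 := (Real.log_pos h1).ne'
  exact (Real.continuousAt_log (by linarith)).rpow_const (Or.inl h2)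

/-- `√s / (log s)^B` is almost increasing. -/
lemma almost_mono_sqrt (B : ℝ) : ∃ C : ℝ, 0 < C ∧ ∀ s t : ℝ, 2 ≤ s → s ≤ t →
    √s / (Real.log s) ^ B ≤ C * (√t / (Real.log t) ^ B) := by
  obtain ⟨C, hC, h⟩ := almost_mono (2 * B)
  refine ⟨√C, Real.sqrt_pos.mpr hC, fun s t hs hst => ?_⟩
  have hls : 0 < Real.log s := Real.log_pos (by linarith)
  have hlt : 0 < Real.log t := Real.log_pos (by linarith)
  have key : ∀ r : ℝ, 0 < Real.log r → √(r / Real.log r ^ (2 * B)) = √r / Real.log r ^ B := by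
    intro r hr
    have e : Real.log r ^ (2 * B) = (Real.log r ^ B) ^ 2 := by
      rw [mul_comm, Real.rpow_mul hr.le, Real.rpow_two]
    rw [e, Real.sqrt_div' _ (by positivity), Real.sqrt_sq (by positivity)]
  rw [← key s hls, ← key t hlt, ← Real.sqrt_mul hC.le]
  exact Real.sqrt_le_sqrt (h s t hs hst)

/-- `∫_2^x (log t)^{-B} dt ≪ x/(log x)^B`. -/
lemma integral_log_rpow_le (B : ℝ) : ∃ C : ℝ, 0 < C ∧ ∀ x : ℝ, 2 ≤ x →
    ∫ t in (2 : ℝ)..x, (Real.log t) ^ (-B) ≤ C * x / (Real.log x) ^ B := by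
  obtain ⟨C, hC, h⟩ := almost_mono_sqrt B
  refine ⟨2 * C, by positivity, fun x hx => ?_⟩
  have hx0 : 0 < x := by linarith
  have hlx : 0 < Real.log x := Real.log_pos (by linarith)
  have hnot : (0 : ℝ) ∉ Set.uIcc 2 x := by
    rw [Set.uIcc_of_le hx]
    intro hh
    linarith [hh.1]
  calc ∫ t in (2 : ℝ)..x, (Real.log t) ^ (-B)
      ≤ ∫ t in (2 : ℝ)..x, C * (√x / Real.log x ^ B) * t ^ (-(1 / 2) : ℝ) := by
        refine intervalIntegral.integral_mono_on hx
          (intervalIntegrable_log_rpow _ (by norm_num) (by linarith))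
          ((intervalIntegral.intervalIntegrable_rpow (Or.inr hnot)).const_mul _) ?_
        intro t ht
        have ht0 : 0 < t := by linarith [ht.1]
        have hlt : 0 < Real.log t := Real.log_pos (by linarith [ht.1])
        have h1 := h t x ht.1 ht.2
        have hs : 0 < √t := Real.sqrt_pos.mpr ht0
        rw [Real.rpow_neg hlt.le, Real.rpow_neg ht0.le, ← Real.sqrt_eq_rpow]
        calc (Real.log t ^ B)⁻¹ = √t / Real.log t ^ B * (√t)⁻¹ := by field_simp
          _ ≤ _ := by gcongr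
    _ = C * (√x / Real.log x ^ B) * (2 * (√x - √2)) := by
        rw [intervalIntegral.integral_const_mul, integral_rpow (Or.inr ⟨by norm_num, hnot⟩)]
        congr 1
        rw [Real.sqrt_eq_rpow, Real.sqrt_eq_rpow]
        norm_num
        ring
    _ ≤ C * (√x / Real.log x ^ B) * (2 * √x) := by
        gcongr
        linarith [Real.sqrt_nonneg 2]
    _ = 2 * C * (√x * √x) / Real.log x ^ B := by ring
    _ = _ := by rw [Real.mul_self_sqrt hx0.le]

/-- Integration by parts for the logarithmic integral. -/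
lemma li_by_parts {x : ℝ} (hx : 2 ≤ x) :
    ∫ t in (2 : ℝ)..x, 1 / Real.log t =
      x / Real.log x - 2 / Real.log 2 + ∫ t in (2 : ℝ)..x, 1 / Real.log t ^ 2 := by
  have hI1 : IntervalIntegrable (fun t => 1 / Real.log t) volume 2 x := by
    have := intervalIntegrable_log_rpow (-1) (a := 2) (b := x) (by norm_num) (by linarith)
    refine this.congr ?_
    intro t ht
    rw [Set.uIoc_of_le hx] at ht
    have : 0 < Real.log t := Real.log_pos (by linarith [ht.1])
    change Real.log t ^ (-1 : ℝ) = 1 / Real.log t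
    rw [Real.rpow_neg_one, one_div]
  have hI2 := Chebyshev.intervalIntegrable_one_div_log_sq (a := 2) (b := x) (by norm_num) (by linarith)
  have h1 : ∫ t in (2 : ℝ)..x, (1 / Real.log t - 1 / Real.log t ^ 2) =
      x / Real.log x - 2 / Real.log 2 := by
    have := intervalIntegral.integral_eq_sub_of_hasDerivAt (a := 2) (b := x)
      (f := fun t => t / Real.log t) (f' := fun t => 1 / Real.log t - 1 / Real.log t ^ 2) ?_
      (hI1.sub hI2)
    · exact this
    · intro t ht
      rw [Set.uIcc_of_le hx] at ht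
      have ht0 : t ≠ 0 := by linarith [ht.1]
      have hl : Real.log t ≠ 0 := (Real.log_pos (by linarith [ht.1])).ne'
      have := (hasDerivAt_id t).div (Real.hasDerivAt_log ht0) hl
      refine this.congr_deriv ?_
      field_simp
      rw [id]
      ring
  rw [← h1, intervalIntegral.integral_sub hI1 hI2]
  ring

/-- **Prime number theorem with arbitrary logarithmic power saving**, for `π`. -/
theorem primeCounting_sub_li_le (A : ℝ) : ∃ C : ℝ, 0 < C ∧ ∀ x : ℝ, 2 ≤ x →
    |(Nat.primeCounting ⌊x⌋₊ : ℝ) - ∫ t in (2 : ℝ)..x, 1 / Real.log t| ≤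
      C * x / (Real.log x) ^ A := by
  obtain ⟨C₁, hC₁, h1⟩ := theta_sub_self_le A
  obtain ⟨C₂, hC₂, h2⟩ := integral_log_rpow_le A
  obtain ⟨C₃, hC₃, h3⟩ := one_le_const_mul A
  have hl2 : 0 < Real.log 2 := Real.log_pos (by norm_num)
  refine ⟨C₁ / Real.log 2 + C₁ / Real.log 2 ^ 2 * C₂ + 2 / Real.log 2 * C₃, by positivity,
    fun x hx => ?_⟩
  have hx0 : 0 < x := by linarith
  have hlx : 0 < Real.log x := Real.log_pos (by linarith)
  have hlx2 : Real.log 2 ≤ Real.log x := Real.log_le_log (by norm_num) hx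
  have hi1 : IntervalIntegrable (fun t => Chebyshev.theta t / (t * Real.log t ^ 2)) volume 2 x := by
    refine intervalIntegrable_iff.mpr ?_
    rw [Set.uIoc_of_le (by linarith), ← integrableOn_Icc_iff_integrableOn_Ioc]
    exact Chebyshev.integrableOn_theta_div_id_mul_log_sq x
  have hi2 := Chebyshev.intervalIntegrable_one_div_log_sq (a := 2) (b := x) (by norm_num) (by linarith)
  have e : (Nat.primeCounting ⌊x⌋₊ : ℝ) - ∫ t in (2 : ℝ)..x, 1 / Real.log t =
      (Chebyshev.theta x - x) / Real.log x + 2 / Real.log 2 +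
      ∫ t in (2 : ℝ)..x, (Chebyshev.theta t / (t * Real.log t ^ 2) - 1 / Real.log t ^ 2) := by
    rw [intervalIntegral.integral_sub hi1 hi2, li_by_parts hx,
      Chebyshev.primeCounting_eq_theta_div_log_add_integral hx]
    ring
  rw [e]
  have b1 : |(Chebyshev.theta x - x) / Real.log x| ≤ C₁ / Real.log 2 * (x / Real.log x ^ A) := by
    rw [abs_div, abs_of_pos hlx]
    calc |Chebyshev.theta x - x| / Real.log x ≤ (C₁ * x / Real.log x ^ A) / Real.log 2 := by
          gcongr
          exact h1 x hx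
      _ = _ := by ring
  have b2 : |2 / Real.log 2| ≤ 2 / Real.log 2 * (C₃ * (x / Real.log x ^ A)) := by
    rw [abs_of_pos (by positivity)]
    exact le_mul_of_one_le_right (by positivity) (h3 x hx)
  have b3 : |∫ t in (2 : ℝ)..x, (Chebyshev.theta t / (t * Real.log t ^ 2) - 1 / Real.log t ^ 2)| ≤
      C₁ / Real.log 2 ^ 2 * (C₂ * x / Real.log x ^ A) := by
    calc |∫ t in (2 : ℝ)..x, (Chebyshev.theta t / (t * Real.log t ^ 2) - 1 / Real.log t ^ 2)|
        ≤ ∫ t in (2 : ℝ)..x, |Chebyshev.theta t / (t * Real.log t ^ 2) - 1 / Real.log t ^ 2| :=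
          intervalIntegral.abs_integral_le_integral_abs hx
      _ ≤ ∫ t in (2 : ℝ)..x, C₁ / Real.log 2 ^ 2 * Real.log t ^ (-A) := by
          refine intervalIntegral.integral_mono_on hx (hi1.sub hi2).abs
            ((intervalIntegrable_log_rpow _ (by norm_num) (by linarith)).const_mul _) ?_
          intro t ht
          have ht0 : 0 < t := by linarith [ht.1]
          have hlt : 0 < Real.log t := Real.log_pos (by linarith [ht.1])
          have hlt2 : Real.log 2 ≤ Real.log t := Real.log_le_log (by norm_num) ht.1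
          have e1 : Chebyshev.theta t / (t * Real.log t ^ 2) - 1 / Real.log t ^ 2 =
              (Chebyshev.theta t - t) / (t * Real.log t ^ 2) := by
            field_simp
          rw [e1, abs_div, abs_of_pos (show 0 < t * Real.log t ^ 2 by positivity)]
          calc |Chebyshev.theta t - t| / (t * Real.log t ^ 2)
              ≤ (C₁ * t / Real.log t ^ A) / (t * Real.log 2 ^ 2) := by
                gcongr
                exact h1 t ht.1
            _ = _ := by
                rw [Real.rpow_neg hlt.le]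
                field_simp
      _ ≤ _ := by
          rw [intervalIntegral.integral_const_mul]
          gcongr
          exact h2 x hx
  calc |(Chebyshev.theta x - x) / Real.log x + 2 / Real.log 2 +
      ∫ t in (2 : ℝ)..x, (Chebyshev.theta t / (t * Real.log t ^ 2) - 1 / Real.log t ^ 2)|
      ≤ C₁ / Real.log 2 * (x / Real.log x ^ A) + 2 / Real.log 2 * (C₃ * (x / Real.log x ^ A)) +
        C₁ / Real.log 2 ^ 2 * (C₂ * x / Real.log x ^ A) :=
        (abs_add_le _ _).trans (add_le_add ((abs_add_le _ _).trans (add_le_add b1 b2)) b3)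
    _ = _ := by ring

/-- The set of primes `q` with `m q ∈ S`. -/
def primesIn (m : ℕ) (S : Set ℝ) : Set ℕ := {q : ℕ | q.Prime ∧ (m * q : ℝ) ∈ S}

lemma primesIn_finite {m : ℕ} (hm : 1 ≤ m) {S : Set ℝ} {x : ℝ} (hS : S ⊆ Set.Iic x) :
    (primesIn m S).Finite := by
  refine (Set.finite_Iic ⌊x⌋₊).subset ?_
  intro q hq
  have h1 : (m * q : ℝ) ≤ x := hS hq.2
  have hm' : (1 : ℝ) ≤ m := by exact_mod_cast hm
  have hq0 : (0 : ℝ) ≤ q := by positivity
  exact Nat.le_floor (by nlinarith)

/-- The discrepancy between the prime count and the integral of `1/log`. -/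
noncomputable def disc (m : ℕ) (S : Set ℝ) : ℝ :=
  ((primesIn m S).ncard : ℝ) - (1 / m) * ∫ t in S, 1 / Real.log (t / m)

lemma integrableOn_inv_log {m : ℕ} (hm : 1 ≤ m) {u x : ℝ} (hu : 2 * m ≤ u) :
    IntegrableOn (fun t => 1 / Real.log (t / m)) (Set.Ioc u x) := by
  have hm' : (0 : ℝ) < m := by exact_mod_cast hm
  refine (ContinuousOn.integrableOn_Icc (a := u) (b := x) ?_).mono_set Set.Ioc_subset_Icc_self
  intro t ht
  refine ContinuousAt.continuousWithinAt ?_
  have h1 : (1 : ℝ) < t / m := by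
    rw [lt_div_iff₀ hm']
    linarith [ht.1]
  have h2 : t / m ≠ 0 := by linarith
  have h3 : Real.log (t / m) ≠ 0 := (Real.log_pos h1).ne'
  exact ContinuousAt.div continuousAt_const
    (ContinuousAt.log (continuousAt_id.div_const _) h2) h3

lemma disc_union {m : ℕ} (hm : 1 ≤ m) {u x : ℝ} (hu : 2 * m ≤ u) {S S' : Set ℝ}
    (h1 : S ⊆ Set.Ioc u x) (h2 : S' ⊆ Set.Ioc u x) (hd : Disjoint S S')
    (hS' : MeasurableSet S') : disc m (S ∪ S') = disc m S + disc m S' := by
  have e1 : primesIn m (S ∪ S') = primesIn m S ∪ primesIn m S' := by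
    ext q
    simp only [primesIn, Set.mem_ofPred_eq, Set.mem_union]
    tauto
  have e2 : (primesIn m (S ∪ S')).ncard = (primesIn m S).ncard + (primesIn m S').ncard := by
    rw [e1]
    refine Set.ncard_union_eq ?_ (primesIn_finite hm (x := x) fun t ht => (h1 ht).2)
      (primesIn_finite hm (x := x) fun t ht => (h2 ht).2)
    rw [Set.disjoint_left]
    intro q hq hq'
    exact (Set.disjoint_left.mp hd) hq.2 hq'.2
  have hI := integrableOn_inv_log (x := x) hm hu
  unfold disc
  rw [e2, setIntegral_union hd hS' (hI.mono_set h1) (hI.mono_set h2)]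
  push_cast
  ring

lemma ncard_primes_Ioc {m : ℕ} (hm : 1 ≤ m) {a b : ℝ} (ha : 0 ≤ a) (hab : a ≤ b) :
    ((primesIn m (Set.Ioc a b)).ncard : ℝ) =
      (Nat.primeCounting ⌊b / m⌋₊ : ℝ) - Nat.primeCounting ⌊a / m⌋₊ := by
  have hm' : (0 : ℝ) < m := by exact_mod_cast hm
  have hfl : ⌊a / m⌋₊ ≤ ⌊b / m⌋₊ := Nat.floor_le_floor (by gcongr)
  have e0 : ∀ n : ℕ, Nat.primeCounting n = ({q : ℕ | q.Prime ∧ q ≤ n}).ncard := by
    intro n
    rw [← Nat.primesLE_card_eq_primeCounting, ← Set.ncard_coe_finset]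
    congr 1
    ext q
    simp [Nat.mem_primesLE, and_comm]
  have e1 : {q : ℕ | q.Prime ∧ q ≤ ⌊b / m⌋₊} =
      primesIn m (Set.Ioc a b) ∪ {q : ℕ | q.Prime ∧ q ≤ ⌊a / m⌋₊} := by
    ext q
    simp only [primesIn, Set.mem_ofPred_eq, Set.mem_union, Set.mem_Ioc]
    have hb : 0 ≤ b := ha.trans hab
    rw [Nat.le_floor_iff (by positivity), Nat.le_floor_iff (by positivity), le_div_iff₀ hm',
      le_div_iff₀ hm', mul_comm (q : ℝ) m]
    constructor
    · rintro ⟨h1, h2⟩
      rcases lt_or_ge a ((m : ℝ) * q) with h3 | h3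
      · exact Or.inl ⟨h1, h3, h2⟩
      · exact Or.inr ⟨h1, h3⟩
    · rintro (⟨h1, h2, h3⟩ | ⟨h1, h2⟩)
      · exact ⟨h1, h3⟩
      · exact ⟨h1, h2.trans hab⟩
  have hf : ∀ n : ℕ, ({q : ℕ | q.Prime ∧ q ≤ n}).Finite := fun n =>
    (Set.finite_Iic n).subset fun q hq => hq.2
  have e2 : Nat.primeCounting ⌊b / m⌋₊ =
      (primesIn m (Set.Ioc a b)).ncard + Nat.primeCounting ⌊a / m⌋₊ := by
    rw [e0, e0, e1]
    refine Set.ncard_union_eq ?_ (primesIn_finite hm (x := b) fun t ht => ht.2) (hf _)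
    rw [Set.disjoint_left]
    rintro q ⟨hq1, hq2⟩ ⟨hq3, hq4⟩
    rw [Nat.le_floor_iff (by positivity), le_div_iff₀ hm', mul_comm] at hq4
    linarith [hq2.1]
  rw [e2]
  push_cast
  ring

lemma integral_Ioc_inv_log {m : ℕ} (hm : 1 ≤ m) {a b : ℝ} (ha : 2 * m ≤ a) (hab : a ≤ b) :
    (1 / (m : ℝ)) * ∫ t in Set.Ioc a b, 1 / Real.log (t / m) =
      (∫ t in (2 : ℝ)..(b / m), 1 / Real.log t) - ∫ t in (2 : ℝ)..(a / m), 1 / Real.log t := by
  have hm' : (0 : ℝ) < m := by exact_mod_cast hm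
  have h2a : 2 ≤ a / m := by rwa [le_div_iff₀ hm']
  have h2b : 2 ≤ b / m := h2a.trans (by gcongr)
  have hI : ∀ {c : ℝ}, 2 ≤ c → IntervalIntegrable (fun t => 1 / Real.log t) volume 2 c := by
    intro c hc
    have := intervalIntegrable_log_rpow (-1) (a := 2) (b := c) (by norm_num) (by linarith)
    refine this.congr ?_
    intro t ht
    rw [Set.uIoc_of_le hc] at ht
    have : 0 < Real.log t := Real.log_pos (by linarith [ht.1])
    change Real.log t ^ (-1 : ℝ) = 1 / Real.log t
    rw [Real.rpow_neg_one, one_div]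
  rw [intervalIntegral.integral_interval_sub_left (hI h2b) (hI h2a),
    ← intervalIntegral.integral_of_le hab]
  have := intervalIntegral.integral_comp_div (a := a) (b := b) (c := (m : ℝ))
    (fun t => 1 / Real.log t) hm'.ne'
  rw [this, smul_eq_mul]
  field_simp

/-- The discrepancy of an interval. -/
lemma disc_ordConnected (A : ℝ) : ∃ C : ℝ, 0 < C ∧ ∀ (m : ℕ) (u x : ℝ) (S : Set ℝ), 1 ≤ m →
    2 * m ≤ u → u ≤ x → S ⊆ Set.Ioc u x → S.OrdConnected →
    |disc m S| ≤ C * (x / m) / (Real.log (x / m)) ^ A := by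
  obtain ⟨C₁, hC₁, h1⟩ := primeCounting_sub_li_le A
  obtain ⟨C₂, hC₂, h2⟩ := almost_mono A
  obtain ⟨C₃, hC₃, h3⟩ := one_le_const_mul A
  refine ⟨C₃ + 2 * (C₁ * C₂), by positivity, fun m u x S hm hu hux hS hoc => ?_⟩
  have hm' : (0 : ℝ) < m := by exact_mod_cast hm
  have h2x : 2 ≤ x / m := by
    rw [le_div_iff₀ hm']
    linarith
  rcases S.eq_empty_or_nonempty with hem | hne
  · subst hem
    have : disc m ∅ = 0 := by
      unfold disc primesIn
      simp
    rw [this, abs_zero]
    have : 0 ≤ Real.log (x / m) := Real.log_nonneg (by linarith)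
    positivity
  have hbb : BddBelow S := ⟨u, fun t ht => (hS ht).1.le⟩
  have hba : BddAbove S := ⟨x, fun t ht => (hS ht).2⟩
  set a := sInf S with ha
  set b := sSup S with hb
  have hab : a ≤ b := by
    obtain ⟨t, ht⟩ := hne
    exact (csInf_le hbb ht).trans (le_csSup hba ht)
  have hua : u ≤ a := le_csInf hne fun t ht => (hS ht).1.le
  have hbx : b ≤ x := csSup_le hne fun t ht => (hS ht).2
  have hsub1 : Set.Ioo a b ⊆ S := by
    intro t ht
    obtain ⟨s₁, hs₁, hs₁t⟩ := exists_lt_of_csInf_lt hne ht.1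
    obtain ⟨s₂, hs₂, hs₂t⟩ := exists_lt_of_lt_csSup hne ht.2
    exact hoc.out hs₁ hs₂ ⟨hs₁t.le, hs₂t.le⟩
  have hsub2 : S ⊆ Set.Icc a b := fun t ht => ⟨csInf_le hbb ht, le_csSup hba ht⟩
  -- integrals agree
  have hint : ∫ t in S, 1 / Real.log (t / m) = ∫ t in Set.Ioc a b, 1 / Real.log (t / m) := by
    refine setIntegral_congr_set ?_
    have h4 : Set.Ioo a b =ᵐ[volume] Set.Icc a b := Ioo_ae_eq_Icc
    have h5 : S =ᵐ[volume] Set.Icc a b := by
      refine (LE.le.eventuallyLE hsub2).antisymm ?_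
      exact h4.symm.le.trans (LE.le.eventuallyLE hsub1)
    exact h5.trans Ioc_ae_eq_Icc.symm
  have ha0 : 0 ≤ a := by nlinarith
  -- counts differ by at most one
  have hc1 : ((primesIn m S).ncard : ℝ) ≤ (primesIn m (Set.Ioc a b)).ncard + 1 := by
    have hss : primesIn m S ⊆ primesIn m (Set.Ioc a b) ∪ {⌊a / m⌋₊} := by
      rintro q ⟨hq1, hq2⟩
      have h5 := hsub2 hq2
      rcases h5.1.lt_or_eq with h6 | h6
      · exact Or.inl ⟨hq1, h6, h5.2⟩
      · right
        rw [Set.mem_singleton_iff, h6, mul_div_cancel_left₀ _ hm'.ne', Nat.floor_natCast]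
    have h7 : (primesIn m S).ncard ≤ (primesIn m (Set.Ioc a b) ∪ {⌊a / m⌋₊}).ncard :=
      Set.ncard_le_ncard hss ((primesIn_finite hm (x := b) fun t ht => ht.2).union
        (Set.finite_singleton _))
    have h8 := Set.ncard_union_le (primesIn m (Set.Ioc a b)) {⌊a / m⌋₊}
    rw [Set.ncard_singleton] at h8
    exact_mod_cast h7.trans h8
  have hc2 : ((primesIn m (Set.Ioc a b)).ncard : ℝ) ≤ (primesIn m S).ncard + 1 := by
    have hss : primesIn m (Set.Ioc a b) ⊆ primesIn m S ∪ {⌊b / m⌋₊} := by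
      rintro q ⟨hq1, hq2⟩
      rcases hq2.2.lt_or_eq with h6 | h6
      · exact Or.inl ⟨hq1, hsub1 ⟨hq2.1, h6⟩⟩
      · right
        rw [Set.mem_singleton_iff, ← h6, mul_div_cancel_left₀ _ hm'.ne', Nat.floor_natCast]
    have h7 : (primesIn m (Set.Ioc a b)).ncard ≤ (primesIn m S ∪ {⌊b / m⌋₊}).ncard :=
      Set.ncard_le_ncard hss ((primesIn_finite hm (x := x) fun t ht => (hS ht).2).union
        (Set.finite_singleton _))
    have h8 := Set.ncard_union_le (primesIn m S) {⌊b / m⌋₊}
    rw [Set.ncard_singleton] at h8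
    exact_mod_cast h7.trans h8
  have h2a : 2 ≤ a / m := by
    rw [le_div_iff₀ hm']
    linarith
  have h2b : 2 ≤ b / m := h2a.trans (by gcongr)
  have hlx : 0 < Real.log (x / m) := Real.log_pos (by linarith)
  have hA := h1 (a / m) h2a
  have hB := h1 (b / m) h2b
  have hA' : C₁ * (a / m) / Real.log (a / m) ^ A ≤ C₁ * C₂ * (x / m / Real.log (x / m) ^ A) := by
    have := h2 (a / m) (x / m) h2a (by gcongr; linarith)
    calc C₁ * (a / m) / Real.log (a / m) ^ A = C₁ * ((a / m) / Real.log (a / m) ^ A) := by ring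
      _ ≤ C₁ * (C₂ * (x / m / Real.log (x / m) ^ A)) := by gcongr
      _ = _ := by ring
  have hB' : C₁ * (b / m) / Real.log (b / m) ^ A ≤ C₁ * C₂ * (x / m / Real.log (x / m) ^ A) := by
    have := h2 (b / m) (x / m) h2b (by gcongr)
    calc C₁ * (b / m) / Real.log (b / m) ^ A = C₁ * ((b / m) / Real.log (b / m) ^ A) := by ring
      _ ≤ C₁ * (C₂ * (x / m / Real.log (x / m) ^ A)) := by gcongr
      _ = _ := by ring
  have hone := h3 (x / m) h2x
  have hD : disc m S = ((primesIn m S).ncard - (primesIn m (Set.Ioc a b)).ncard : ℝ) +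
      (((Nat.primeCounting ⌊b / m⌋₊ : ℝ) - ∫ t in (2 : ℝ)..(b / m), 1 / Real.log t) -
      ((Nat.primeCounting ⌊a / m⌋₊ : ℝ) - ∫ t in (2 : ℝ)..(a / m), 1 / Real.log t)) := by
    unfold disc
    rw [hint, integral_Ioc_inv_log hm (hu.trans hua) hab, ncard_primes_Ioc hm ha0 hab]
    ring
  rw [hD]
  have hE1 : |((primesIn m S).ncard - (primesIn m (Set.Ioc a b)).ncard : ℝ)| ≤ 1 := by
    rw [abs_le]
    constructor <;> linarith
  have hE2 : |((Nat.primeCounting ⌊b / m⌋₊ : ℝ) - ∫ t in (2 : ℝ)..(b / m), 1 / Real.log t) -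
      ((Nat.primeCounting ⌊a / m⌋₊ : ℝ) - ∫ t in (2 : ℝ)..(a / m), 1 / Real.log t)| ≤
      2 * (C₁ * C₂ * (x / m / Real.log (x / m) ^ A)) := by
    refine (abs_sub _ _).trans ?_
    linarith
  calc _ ≤ 1 + 2 * (C₁ * C₂ * (x / m / Real.log (x / m) ^ A)) :=
        (abs_add_le _ _).trans (add_le_add hE1 hE2)
    _ ≤ C₃ * (x / m / Real.log (x / m) ^ A) + 2 * (C₁ * C₂ * (x / m / Real.log (x / m) ^ A)) := by
        linarith
    _ = _ := by ring

lemma disc_pieces (A : ℝ) : ∃ C : ℝ, 0 < C ∧ ∀ (m : ℕ) (u x : ℝ), 1 ≤ m →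
    2 * m ≤ u → u ≤ x → ∀ (T : Finset ℝ) (S : Set ℝ), S ⊆ Set.Ioc u x → MeasurableSet S →
    (∀ r s : ℝ, u < r → r ≤ s → (∀ τ ∈ T, ¬ (r < τ ∧ τ ≤ s)) → s ∈ S → r ∈ S) →
    |disc m S| ≤ (T.card + 1) * (C * (x / m) / (Real.log (x / m)) ^ A) := by
  obtain ⟨C, hC, h⟩ := disc_ordConnected A
  refine ⟨C, hC, fun m u x hm hu hux T => ?_⟩
  refine Finset.induction_on_max T ?_ ?_
  · intro S hS _ hST
    have := h m u x S hm hu hux hS ⟨fun r hr s hs t ht =>
      hST t s ((hS hr).1.trans_le ht.1) ht.2 (by simp) hs⟩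
    simpa using this
  · intro a T hT ih S hS hSm hST
    have hdis : Disjoint (S ∩ Set.Iio a) (S ∩ Set.Ici a) := by
      rw [Set.disjoint_left]
      rintro t ⟨_, h1⟩ ⟨_, h2⟩
      rw [Set.mem_Iio] at h1
      rw [Set.mem_Ici] at h2
      linarith
    have hun : S = (S ∩ Set.Iio a) ∪ (S ∩ Set.Ici a) := by
      rw [← Set.inter_union_distrib_left, Set.Iio_union_Ici, Set.inter_univ]
    have hD : disc m S = disc m (S ∩ Set.Iio a) + disc m (S ∩ Set.Ici a) := by
      conv_lhs => rw [hun]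
      exact disc_union hm hu (Set.inter_subset_left.trans hS) (Set.inter_subset_left.trans hS) hdis
        (hSm.inter measurableSet_Ici)
    have hb1 := ih (S ∩ Set.Iio a) (Set.inter_subset_left.trans hS) (hSm.inter measurableSet_Iio)
      (by
        rintro r s hr hrs hτ ⟨hs, hsa⟩
        refine ⟨hST r s hr hrs ?_ hs, hrs.trans_lt hsa⟩
        intro τ hτT
        rcases Finset.mem_insert.mp hτT with h1 | h1
        · subst h1
          rintro ⟨_, h2⟩
          exact absurd hsa (not_lt.mpr h2)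
        · exact hτ τ h1)
    have hb2 := h m u x (S ∩ Set.Ici a) hm hu hux (Set.inter_subset_left.trans hS)
      ⟨fun r hr s hs t ht => ⟨hST t s ((hS hr.1).1.trans_le ht.1) ht.2 (by
        intro τ hτT
        rcases Finset.mem_insert.mp hτT with h1 | h1
        · subst h1
          rintro ⟨h2, _⟩
          exact absurd (lt_of_lt_of_le h2 (hr.2.trans ht.1)) (lt_irrefl _)
        · rintro ⟨h2, _⟩
          exact absurd ((hT τ h1).trans_le (hr.2.trans ht.1)) (not_lt.mpr h2.le)) hs.1,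
        hr.2.trans ht.1⟩⟩
    have hcard : (insert a T).card = T.card + 1 := by
      rw [Finset.card_insert_of_notMem]
      intro h1
      exact absurd (hT a h1) (lt_irrefl _)
    rw [hD, hcard]
    refine (abs_add_le _ _).trans ?_
    push_cast
    linarith

/-- The number of primes `q` with `u < m q ≤ x` and `h (m q)`, where `h` holds on an initial
segment of every interval between consecutive break points in `T`. -/
theorem count_pieces (A : ℝ) : ∃ C : ℝ, 0 < C ∧ ∀ (m : ℕ) (u x : ℝ) (h : ℝ → Prop)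
    (T : Finset ℝ), 1 ≤ m → 2 * m ≤ u → u ≤ x → MeasurableSet {t | h t} →
    (∀ r s : ℝ, u < r → r ≤ s → s ≤ x → (∀ τ ∈ T, ¬ (r < τ ∧ τ ≤ s)) → h s → h r) →
    |(Nat.card {q : ℕ // q.Prime ∧ u < (m * q : ℝ) ∧ (m * q : ℝ) ≤ x ∧ h (m * q)} : ℝ) -
      (1 / m) * ∫ t in ({t | h t} ∩ Set.Ioc u x), 1 / Real.log (t / m)| ≤
      (T.card + 1) * (C * (x / m) / (Real.log (x / m)) ^ A) := by
  obtain ⟨C, hC, hd⟩ := disc_pieces A
  refine ⟨C, hC, fun m u x h T hm hu hux hmeas hT => ?_⟩
  have h1 := hd m u x hm hu hux T ({t | h t} ∩ Set.Ioc u x) Set.inter_subset_right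
    (hmeas.inter measurableSet_Ioc) (by
      rintro r s hr hrs hτ ⟨hs, hs'⟩
      exact ⟨hT r s hr hrs hs'.2 hτ hs, hr, hrs.trans hs'.2⟩)
  have h2 : Nat.card {q : ℕ // q.Prime ∧ u < (m * q : ℝ) ∧ (m * q : ℝ) ≤ x ∧ h (m * q)} =
      (primesIn m ({t | h t} ∩ Set.Ioc u x)).ncard := by
    have e : primesIn m ({t | h t} ∩ Set.Ioc u x) =
        {q : ℕ | q.Prime ∧ u < (m * q : ℝ) ∧ (m * q : ℝ) ≤ x ∧ h (m * q)} := by
      ext q
      simp only [primesIn, Set.mem_ofPred_eq, Set.mem_inter_iff, Set.mem_Ioc]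
      tauto
    rw [e]
    rfl
  rw [h2]
  exact h1

end Pool.Agent.Work.Shared.PNT
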